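import Mathlib
import Pool.Agent.U766.SN.Strip
import Pool.Agent.N889.SN.Diag
import Pool.Agent.N889.SN.Fin
import Pool.Agent.Results.MP_8fded1_nt.EllipticPointIsHarmless
import Pool.Agent.U14.MV.Loc

set_option autoImplicit false

/-!
# MP_8fded1_nt: the sup-norm conjecture is a statement on the moments on one small disc

Let `U` be a Hecke-Maass cusp form for the full modular group with eigenvalue `1/4 + T²`, `T ≥ 1`. No
bound below depends on `U`. On the upper half-plane `ℍ` the measure is `dμ = dx dy / y²`.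

(1) For `p ≥ 2` and `δ > 0`: `|U w|^p ≤ C T² ∫ |U|^p dμ`, the integral over the disc of radius `δ` around
`w`, for all `w ∈ ℍ`.
(2) Let `D` be a hyperbolic disc of radius `r` whose centre has a modular translate of height greater
than `1 / (2 r)` (every disc if `r > 1 / √3`; discs of arbitrarily small radius high in the cusp). Then for
compact `Ω`: `sup_Ω |U| ≤ C T^(2/p) (∫_D |U|^p dμ)^(1/p)`.
(3) For every exponent `s` the sup-norm bounds with the exponents `s + ε`, `ε > 0`, on all compact sets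
are equivalent to the bounds `T^(p s + ε)`, `ε > 0`, for the moments `∫_D |U|^p dμ` for all `p > 0`, and to
these bounds for arbitrarily large `p`. In particular (`s = 0`) Q1 holds if and only if for arbitrarily
large `p` the moments `∫_D |U|^p dμ` are bounded by `T^ε`, for each `ε > 0`, for one disc `D`.

Proof of (1). `f = |U|²` satisfies `Δ f ≥ - 2 V f` with `V = (1/4 + T²) / y²`; the means of `f` over the
discs of radius `t ≤ c y / T` around `w`, times `exp (V₀ t² / 2)`, do not decrease (`Pool.Agent.U14.MV`). Then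
use the convexity of `x^(p/2)`. The control of compact sets by `D` (`one_disc`) is that of
`OneSmallDiscControls` (helper766), whose proof is repeated here.
-/

namespace Pool.Agent.Results.MP_8fded1_nt.MomentsOnOneDisc

open Filter UpperHalfPlane MeasureTheory Topology
open scoped MatrixGroups ENNReal
open Pool.Agent.Results.MP_8fded1_nt.EllipticPointIsHarmless (IsHeckeMaass SupNormBound invariance)
open Pool.Agent.U766.SN (Pts)


/-- integer translates -/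
lemma move {U : ℂ → ℂ} {T : ℝ} (hU : IsHeckeMaass U T) (x₀ : ℝ) {w : ℂ} (hw : 0 < w.im) :
    ∃ v : ℂ, U v = U w ∧ v.im = w.im ∧ |v.re - x₀| ≤ 1 / 2 := by
  refine ⟨w + ((-round (w.re - x₀) : ℤ) : ℂ), (Pool.Agent.N889.SN.isPer hU).int _ hw, by simp, ?_⟩
  have e : (w + ((-round (w.re - x₀) : ℤ) : ℂ)).re - x₀ = (w.re - x₀) - round (w.re - x₀) := by
    simp only [Int.cast_neg, Complex.add_re, Complex.neg_re, Complex.intCast_re]
    ring
  rw [e]
  exact abs_sub_round _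

lemma dist_bound (z w : ℍ) (h : z.im ≤ w.im) :
    dist w z ≤ |w.re - z.re| / z.im + (Real.log w.im - Real.log z.im) := by
  set v : ℍ := ⟨⟨w.re, z.im⟩, z.im_pos⟩ with hv
  have hvre : v.re = w.re := rfl
  have hvim : v.im = z.im := rfl
  have h1 : dist w v = Real.log w.im - Real.log z.im := by
    rw [dist_of_re_eq hvre.symm, hvim, Real.dist_eq, abs_of_nonneg]
    have := Real.log_le_log z.im_pos h
    linarith
  have h2 : dist v z ≤ |w.re - z.re| / z.im := by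
    refine (dist_le_dist_coe_div_sqrt v z).trans (le_of_eq ?_)
    have e1 : √(v.im * z.im) = z.im := by
      rw [hvim, Real.sqrt_mul_self z.im_pos.le]
    have e2 : dist (v : ℂ) z = |w.re - z.re| := by
      rw [Complex.dist_of_im_eq (by exact hvim), Real.dist_eq]
      rfl
    rw [e1, e2]
  calc dist w z ≤ dist w v + dist v z := dist_triangle _ _ _
    _ ≤ _ := by linarith

/-- discs of radius `ρ / Im z₁`, uniformly for bounded heights -/
theorem discs (ρ c k : ℝ) (hρ : 1 / 2 < ρ) (hc : 0 < c) (Ω : Set ℂ) (hΩ : IsCompact Ω)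
    (hΩ' : Ω ⊆ {z : ℂ | 0 < z.im}) :
    ∃ C : ℝ, 0 < C ∧ ∀ (U : ℂ → ℂ) (T : ℝ), IsHeckeMaass U T → ∀ z₁ : ℍ, c ≤ z₁.im → z₁.im ≤ k →
      ∀ z ∈ Ω, ∃ w : ℍ, dist w z₁ < ρ / z₁.im ∧ ‖U z‖ ≤ C * ‖U w‖ := by
  set η : ℝ := (ρ - 1 / 2) / (2 * (|k| + 1)) with hη
  have hη0 : 0 < η := by
    have : 0 < ρ - 1 / 2 := by linarith
    positivity
  obtain ⟨C, hC, h⟩ := Pool.Agent.U766.SN.strip Pool.Agent.N889.SN.KK Pool.Agent.N889.SN.KK_nonneg η hη0 c k hc
    Ω hΩ hΩ'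
  refine ⟨C, hC, fun U T hU z₁ h1 h2 z hz => ?_⟩
  obtain ⟨w₀, hw₀, hw1, hw2⟩ := h U (Pool.Agent.N889.SN.isPer hU) (fun z hz => (hU.2.1 z hz).2) z₁.im h1 h2 z hz
  have hy := z₁.im_pos
  obtain ⟨v, hv, hv1, hv2⟩ := move hU z₁.re (hy.trans hw1)
  rw [← hv] at hw₀
  rw [← hv1] at hw1 hw2
  refine ⟨⟨v, hy.trans hw1⟩, ?_, hw₀⟩
  have h3 := dist_bound z₁ ⟨v, hy.trans hw1⟩ hw1.le
  refine h3.trans_lt ?_
  have e1 : (⟨v, hy.trans hw1⟩ : ℍ).im = v.im := rfl
  have e2 : (⟨v, hy.trans hw1⟩ : ℍ).re = v.re := rfl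
  rw [e1, e2]
  have h4 : Real.log v.im - Real.log z₁.im ≤ η := by
    rw [← Real.log_div (hy.trans hw1).ne' hy.ne']
    have h5 : v.im / z₁.im ≤ 1 + η := by
      rw [div_le_iff₀ hy]
      exact hw2.le
    have h6 : 0 < v.im / z₁.im := div_pos (hy.trans hw1) hy
    have h7 := Real.log_le_sub_one_of_pos h6
    linarith
  have h5 : |v.re - z₁.re| / z₁.im ≤ (1 / 2) / z₁.im := by gcongr
  have h6 : η < (ρ - 1 / 2) / z₁.im := by
    rw [hη]
    have h7 : z₁.im < 2 * (|k| + 1) := by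
      have := le_abs_self k
      have := abs_nonneg k
      linarith
    have h8 : 0 < ρ - 1 / 2 := by linarith
    gcongr
  calc |v.re - z₁.re| / z₁.im + (Real.log v.im - Real.log z₁.im) < (1 / 2) / z₁.im + (ρ - 1 / 2) / z₁.im := by
        linarith
    _ = ρ / z₁.im := by ring

lemma isCompact_box (r a b : ℝ) : IsCompact {z : ℂ | |z.re| ≤ r ∧ a ≤ z.im ∧ z.im ≤ b} := by
  have hc : IsCompact (Complex.equivRealProdCLM.symm '' (Set.Icc (-r) r ×ˢ Set.Icc a b)) :=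
    (isCompact_Icc.prod isCompact_Icc).image Complex.equivRealProdCLM.symm.continuous
  have e : Complex.equivRealProdCLM.symm '' (Set.Icc (-r) r ×ˢ Set.Icc a b) =
      {z : ℂ | |z.re| ≤ r ∧ a ≤ z.im ∧ z.im ≤ b} := by
    ext z
    constructor
    · rintro ⟨⟨x, y⟩, ⟨hx, hy⟩, rfl⟩
      exact ⟨abs_le.2 ⟨hx.1, hx.2⟩, hy.1, hy.2⟩
    · rintro ⟨h1, h2, h3⟩
      exact ⟨(z.re, z.im), ⟨⟨(abs_le.1 h1).1, (abs_le.1 h1).2⟩, ⟨h2, h3⟩⟩, rfl⟩
  rwa [e] at hc

/-- a single disc -/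
theorem one_disc (z₀ : ℍ) (g : SL(2, ℤ)) (r : ℝ) (hr : 1 < 2 * r * (g • z₀).im) (Ω : Set ℂ) (hΩ : IsCompact Ω)
    (hΩ' : Ω ⊆ {z : ℂ | 0 < z.im}) :
    ∃ C : ℝ, 0 < C ∧ ∀ (U : ℂ → ℂ) (T : ℝ), IsHeckeMaass U T →
      ∀ z ∈ Ω, ∃ w : ℍ, dist w z₀ < r ∧ ‖U z‖ ≤ C * ‖U w‖ := by
  have hy := (g • z₀).im_pos
  obtain ⟨C, hC, h⟩ := discs (r * (g • z₀).im) (g • z₀).im (g • z₀).im (by linarith) hy Ω hΩ hΩ'
  refine ⟨C, hC, fun U T hU z hz => ?_⟩
  obtain ⟨w, hw, hw'⟩ := h U T hU (g • z₀) le_rfl le_rfl z hz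
  rw [mul_div_assoc, div_self hy.ne', mul_one] at hw
  refine ⟨g⁻¹ • w, ?_, ?_⟩
  · have e : dist (g⁻¹ • w) z₀ = dist w (g • z₀) := by
      have h1 := dist_smul (Matrix.SpecialLinearGroup.map (Int.castRingHom ℝ) g) (g⁻¹ • w) z₀
      have e1 : ∀ v : ℍ, (Matrix.SpecialLinearGroup.map (Int.castRingHom ℝ) g) • v = g • v := fun v => rfl
      rw [e1, e1, smul_inv_smul] at h1
      exact h1.symm
    rw [e]
    exact hw
  · rw [invariance hU.2.1 g⁻¹ w]
    exact hw'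

/-- every disc of radius greater than `1 / √3` -/
theorem big_disc (z₀ : ℍ) (r : ℝ) (hr : 1 / √3 < r) : ∃ g : SL(2, ℤ), 1 < 2 * r * (g • z₀).im := by
  obtain ⟨g, hg⟩ := ModularGroup.exists_smul_mem_fd z₀
  refine ⟨g, ?_⟩
  have h1 := ModularGroup.three_le_four_mul_im_sq_of_mem_fd hg
  have hy := (g • z₀).im_pos
  have h3 : (0 : ℝ) < √3 := by positivity
  have h4 : √3 ≤ 2 * (g • z₀).im := by
    rw [Real.sqrt_le_left (by positivity)]
    nlinarith
  have h5 : 1 < r * √3 := by rwa [div_lt_iff₀ h3] at hr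
  have hr0 : 0 < r := lt_trans (by positivity) hr
  nlinarith

/-! ### the local bound -/

/-- integrals over discs of the plane contained in hyperbolic discs -/
lemma to_hyp {F : ℂ → ℝ} (hF : ContinuousOn F {z : ℂ | 0 < z.im}) (hF0 : ∀ z, 0 ≤ F z) (w : ℍ) {ρ δ : ℝ}
    (hρ1 : ρ ≤ w.im / 4) (hρ2 : ρ ≤ δ / 4 * w.im) (hδ : 0 < δ) :
    ∫ z in Metric.ball (w : ℂ) ρ, F z ≤ (2 * w.im) ^ 2 * ∫ z in Metric.ball w δ, F (z : ℍ) := by
  have hy := w.im_pos
  set S : Set ℍ := UpperHalfPlane.coe ⁻¹' Metric.ball (w : ℂ) ρ with hS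
  have hSm : MeasurableSet S := measurable_coe Metric.isOpen_ball.measurableSet
  have him : ∀ z : ℂ, z ∈ Metric.ball (w : ℂ) ρ → |z.im - w.im| < ρ := by
    intro z hz
    have h1 := Complex.abs_im_le_norm (z - w)
    rw [Complex.sub_im, UpperHalfPlane.coe_im] at h1
    rw [mem_ball_iff_norm] at hz
    exact h1.trans_lt hz
  have hcoe : UpperHalfPlane.coe '' S = Metric.ball (w : ℂ) ρ := by
    rw [hS, Set.image_preimage_eq_inter_range, Set.inter_eq_left]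
    intro z hz
    have h1 := (abs_lt.1 (him z hz)).1
    exact ⟨⟨z, by linarith⟩, rfl⟩
  have hsub : S ⊆ Metric.ball w δ := by
    intro z hz
    have hz' : (z : ℂ) ∈ Metric.ball (w : ℂ) ρ := hz
    have h1 := (abs_lt.1 (him z hz')).1
    rw [UpperHalfPlane.coe_im] at h1
    have h2 : 3 / 4 * w.im < z.im := by linarith
    have h3 : w.im / 2 ≤ √(z.im * w.im) := by
      refine Real.le_sqrt_of_sq_le ?_
      nlinarith
    have h4 : dist (z : ℂ) w < ρ := hz'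
    rw [Metric.mem_ball]
    calc dist z w ≤ dist (z : ℂ) w / √(z.im * w.im) := dist_le_dist_coe_div_sqrt z w
      _ ≤ dist (z : ℂ) w / (w.im / 2) := by gcongr
      _ ≤ ρ / (w.im / 2) := by gcongr
      _ ≤ (δ / 4 * w.im) / (w.im / 2) := by gcongr
      _ = δ / 2 := by field_simp; ring
      _ < δ := by linarith
  have hFc : Continuous fun z : ℍ => F z :=
    hF.comp_continuous UpperHalfPlane.continuous_coe fun z => z.im_pos
  have hI1 : IntegrableOn (fun z : ℍ => F z) (Metric.ball w δ) :=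
    (hFc.continuousOn.integrableOn_compact (isCompact_closedBall w δ)).mono_set Metric.ball_subset_closedBall
  have hI2 : IntegrableOn F (Metric.ball (w : ℂ) ρ) := by
    refine (ContinuousOn.integrableOn_compact (isCompact_closedBall (w : ℂ) ρ) (hF.mono ?_)).mono_set
      Metric.ball_subset_closedBall
    intro z hz
    have h1 := Complex.abs_im_le_norm (z - w)
    rw [Complex.sub_im, UpperHalfPlane.coe_im] at h1
    rw [Metric.mem_closedBall, dist_eq_norm] at hz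
    have := (abs_le.1 (h1.trans hz)).1
    show 0 < z.im
    linarith
  have hm : Measurable fun z : ℍ => (((1 / NNReal.mk z.im z.im_pos.le : NNReal) ^ 2 : NNReal) : ℝ≥0∞) := by
    refine Measurable.coe_nnreal_ennreal (Continuous.measurable ?_)
    refine .pow (.div₀ continuous_const ?_ ?_) _
    · exact UpperHalfPlane.continuous_im.subtype_mk _
    · exact fun x ↦ NNReal.ne_iff.mp x.im_ne_zero
  have hmp : MeasurePreserving UpperHalfPlane.coe (volume.comap UpperHalfPlane.coe)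
      (volume.restrict (.range UpperHalfPlane.coe)) :=
    ⟨measurable_coe, by rw [measurableEmbedding_coe.map_comap]⟩
  have hφ : Measurable fun z : ℍ => ENNReal.ofReal (F z) := hFc.measurable.ennreal_ofReal
  have key : ∫⁻ z in Metric.ball (w : ℂ) ρ, ENNReal.ofReal (F z) ≤
      ENNReal.ofReal ((2 * w.im) ^ 2) * ∫⁻ z in S, ENNReal.ofReal (F (z : ℍ)) := by
    rw [volume_def, setLIntegral_withDensity_eq_setLIntegral_mul _ hm hφ hSm,
      ← lintegral_const_mul _ (hm.mul hφ), ← hcoe,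
      ← Set.inter_eq_self_of_subset_left (Set.image_subset_range UpperHalfPlane.coe S),
      ← Measure.restrict_restrict' measurableEmbedding_coe.measurableSet_range,
      ← hmp.setLIntegral_comp_emb measurableEmbedding_coe]
    refine setLIntegral_mono' hSm fun z hz => ?_
    have h1 := (abs_lt.1 (him z hz)).2
    rw [UpperHalfPlane.coe_im] at h1
    have hz0 := z.im_pos
    have e : (((1 / NNReal.mk z.im z.im_pos.le : NNReal) ^ 2 : NNReal) : ℝ≥0∞) = ENNReal.ofReal ((1 / z.im) ^ 2) := by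
      rw [ENNReal.ofReal, ENNReal.coe_inj]
      ext
      rw [Real.coe_toNNReal _ (by positivity)]
      simp
    simp only [Pi.mul_apply]
    rw [e, ← ENNReal.ofReal_mul (by positivity), ← ENNReal.ofReal_mul (by positivity)]
    refine ENNReal.ofReal_le_ofReal ?_
    have h2 : 1 ≤ (2 * w.im) ^ 2 * (1 / z.im) ^ 2 := by
      rw [← mul_pow]
      refine one_le_pow₀ ?_
      rw [mul_one_div, le_div_iff₀ hz0]
      linarith
    nlinarith [hF0 z]
  have h1 : ∫⁻ z in Metric.ball (w : ℂ) ρ, ENNReal.ofReal (F z) ≤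
      ENNReal.ofReal ((2 * w.im) ^ 2) * ∫⁻ z in Metric.ball w δ, ENNReal.ofReal (F (z : ℍ)) :=
    key.trans (mul_le_mul_right (lintegral_mono_set hsub) _)
  rw [← ofReal_integral_eq_lintegral_ofReal hI2 (Eventually.of_forall fun z => hF0 z),
    ← ofReal_integral_eq_lintegral_ofReal hI1 (Eventually.of_forall fun z => hF0 z),
    ← ENNReal.ofReal_mul (by positivity), ENNReal.ofReal_le_ofReal_iff] at h1
  · exact h1
  · have : 0 ≤ ∫ z in Metric.ball w δ, F (z : ℍ) := integral_nonneg fun z => hF0 z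
    positivity

lemma scale {F : ℂ → ℝ} (w : ℂ) {ρ : ℝ} (hρ : 0 < ρ) :
    ∫ ξ in Metric.ball (0 : ℂ) 1, F (w + ρ * ξ) = (ρ ^ 2)⁻¹ * ∫ z in Metric.ball w ρ, F z := by
  rw [← integral_indicator Metric.isOpen_ball.measurableSet, ← integral_indicator Metric.isOpen_ball.measurableSet]
  have e1 : ∀ ξ : ℂ, (Metric.ball (0 : ℂ) 1).indicator (fun ξ => F (w + ρ * ξ)) ξ =
      (Metric.ball w ρ).indicator F (w + ρ • ξ) := by
    intro ξ
    have h1 : ξ ∈ Metric.ball (0 : ℂ) 1 ↔ w + ρ • ξ ∈ Metric.ball w ρ := by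
      rw [mem_ball_zero_iff, mem_ball_iff_norm, add_sub_cancel_left, norm_smul, Real.norm_of_nonneg hρ.le]
      constructor
      · intro h
        nlinarith
      · intro h
        by_contra h2
        push Not at h2
        nlinarith
    by_cases h : ξ ∈ Metric.ball (0 : ℂ) 1
    · rw [Set.indicator_of_mem h, Set.indicator_of_mem (h1.1 h), Complex.real_smul]
    · rw [Set.indicator_of_notMem h, Set.indicator_of_notMem (fun h3 => h (h1.2 h3))]
  simp only [e1]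
  have h2 := Measure.integral_comp_smul (volume : Measure ℂ) (fun z => (Metric.ball w ρ).indicator F (w + z)) ρ
  rw [h2, Complex.finrank_real_complex, abs_of_pos (by positivity), smul_eq_mul,
    integral_add_left_eq_self (fun z => (Metric.ball w ρ).indicator F z) w]

/-- **Part (1).** -/
theorem part_one (p : ℝ) (hp : 2 ≤ p) (δ : ℝ) (hδ : 0 < δ) : ∃ C : ℝ, 0 < C ∧ ∀ (U : ℂ → ℂ) (T : ℝ), 1 ≤ T →
    IsHeckeMaass U T → ∀ w : ℍ, ‖U w‖ ^ p ≤ C * T ^ 2 * ∫ z in Metric.ball w δ, ‖U (z : ℍ)‖ ^ p := by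
  set κ : ℝ := min (1 / 4) (δ / 4) with hκ
  have hκ0 : 0 < κ := by rw [hκ]; positivity
  have hκ1 : κ ≤ 1 / 4 := min_le_left _ _
  have hκ2 : κ ≤ δ / 4 := min_le_right _ _
  have hpi := Real.pi_pos
  refine ⟨Real.exp 1 ^ (p / 2) / Real.pi * (4 / κ ^ 2), by positivity, fun U T hT hU w => ?_⟩
  have hy := w.im_pos
  have hT0 : 0 < T := by linarith
  set ρ : ℝ := κ * w.im / T with hρd
  have hρ : 0 < ρ := by rw [hρd]; positivity
  have hρκ : ρ ≤ κ * w.im := div_le_self (by positivity) hT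
  have hρ1 : ρ ≤ w.im / 4 := by nlinarith
  have hρ2 : ρ ≤ δ / 4 * w.im := by nlinarith
  have hpos : ∀ z : ℂ, ‖z - w‖ ≤ ρ → 3 / 4 * w.im ≤ z.im := by
    intro z hz
    have h1 := Complex.abs_im_le_norm (z - w)
    rw [Complex.sub_im, UpperHalfPlane.coe_im] at h1
    have := (abs_le.1 (h1.trans hz)).1
    linarith
  have h1 := Pool.Agent.U14.MV.loc hU.1 (p := (w : ℂ)) w.im_pos (V₀ := (1 / 4 + T ^ 2) / (3 / 4 * w.im) ^ 2) hρ hρ1
    (fun z => (1 / 4 + T ^ 2) / z.im ^ 2) (fun z hz => ⟨by positivity, by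
      have := hpos z hz
      have h0 : 0 < 3 / 4 * w.im := by positivity
      gcongr⟩) (fun z hz => by
      have hz0 : 0 < z.im := lt_of_lt_of_le (by positivity) (hpos z hz)
      have h2 := hU.2.2.1 z hz0
      have hz1 : (z.im : ℂ) ≠ 0 := by exact_mod_cast hz0.ne'
      set A := deriv (deriv (fun t : ℝ => U (z + (t : ℂ)))) 0 +
        deriv (deriv (fun t : ℝ => U (z + (t : ℂ) * Complex.I))) 0 with hA
      push_cast
      field_simp
      linear_combination -4 * h2)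
  -- the exponential factor
  have h2 : (1 / 4 + T ^ 2) / (3 / 4 * w.im) ^ 2 * ρ ^ 2 / 2 ≤ 1 := by
    have e : (1 / 4 + T ^ 2) / (3 / 4 * w.im) ^ 2 * ρ ^ 2 / 2 = (1 / 4 + T ^ 2) / T ^ 2 * κ ^ 2 * (8 / 9) := by
      rw [hρd]
      field_simp
      ring
    rw [e]
    have h3 : (1 / 4 + T ^ 2) / T ^ 2 ≤ 2 := by
      rw [div_le_iff₀ (by positivity)]
      nlinarith
    have h4 : κ ^ 2 ≤ 1 / 16 := by nlinarith
    have h5 : 0 ≤ κ ^ 2 := by positivity
    nlinarith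
  have hUc : ContinuousOn (fun z : ℂ => ‖U z‖ ^ 2) {z : ℂ | 0 < z.im} := hU.1.continuousOn.norm.pow 2
  have hUp : ContinuousOn (fun z : ℂ => ‖U z‖ ^ p) {z : ℂ | 0 < z.im} :=
    hU.1.continuousOn.norm.rpow_const fun z _ => Or.inr (by linarith)
  have hmap : ∀ ξ ∈ Metric.closedBall (0 : ℂ) 1, ((w : ℂ) + ρ * ξ) ∈ {z : ℂ | 0 < z.im} := by
    intro ξ hξ
    have h3 : ‖ξ‖ ≤ 1 := by simpa using hξ
    have h4 := hpos ((w : ℂ) + ρ * ξ) (by
      rw [add_sub_cancel_left, norm_mul, Complex.norm_real, Real.norm_of_nonneg hρ.le]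
      nlinarith)
    exact lt_of_lt_of_le (by positivity) h4
  have hcomp : ∀ F : ℂ → ℝ, ContinuousOn F {z : ℂ | 0 < z.im} →
      IntegrableOn (fun ξ : ℂ => F ((w : ℂ) + ρ * ξ)) (Metric.ball (0 : ℂ) 1) := by
    intro F hF
    refine (ContinuousOn.integrableOn_compact (isCompact_closedBall (0 : ℂ) 1) ?_).mono_set
      Metric.ball_subset_closedBall
    exact hF.comp (by fun_prop) hmap
  have hvol : volume.real (Metric.ball (0 : ℂ) 1) = Real.pi := Pool.Agent.R737.HO.volume_real_ball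
  -- Jensen
  have h3 : (⨍ ξ in Metric.ball (0 : ℂ) 1, ‖U ((w : ℂ) + ρ * ξ)‖ ^ 2) ^ (p / 2) ≤
      ⨍ ξ in Metric.ball (0 : ℂ) 1, (‖U ((w : ℂ) + ρ * ξ)‖ ^ 2) ^ (p / 2) := by
    refine (convexOn_rpow (p := p / 2) (by linarith)).map_set_average_le
      (continuousOn_id.rpow_const fun z _ => Or.inr (by linarith)) isClosed_Ici
      (Metric.measure_ball_pos volume (0 : ℂ) one_pos).ne' measure_ball_lt_top.ne
      (Eventually.of_forall fun ξ => Set.mem_Ici.2 (by positivity)) (hcomp _ hUc) ?_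
    exact hcomp (fun z => (‖U z‖ ^ 2) ^ (p / 2)) (hUc.rpow_const fun z _ => Or.inr (by linarith))
  have e3 : ∀ z : ℂ, (‖U z‖ ^ 2) ^ (p / 2) = ‖U z‖ ^ p := by
    intro z
    rw [← Real.rpow_natCast, ← Real.rpow_mul (norm_nonneg _)]
    congr 1
    push_cast
    ring
  simp only [e3] at h3
  rw [setAverage_eq, setAverage_eq, hvol, smul_eq_mul, smul_eq_mul] at h3
  have h4 : ‖U w‖ ^ 2 ≤ Real.exp 1 * (Real.pi⁻¹ * ∫ ξ in Metric.ball (0 : ℂ) 1, ‖U ((w : ℂ) + ρ * ξ)‖ ^ 2) := by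
    have h5 : 0 ≤ ∫ ξ in Metric.ball (0 : ℂ) 1, ‖U ((w : ℂ) + ρ * ξ)‖ ^ 2 := integral_nonneg fun ξ => by positivity
    have h6 : Real.exp ((1 / 4 + T ^ 2) / (3 / 4 * w.im) ^ 2 * ρ ^ 2 / 2) ≤ Real.exp 1 := Real.exp_le_exp.2 h2
    have h7 := h1.trans (mul_le_mul_of_nonneg_right h6 h5)
    calc ‖U w‖ ^ 2 = Real.pi⁻¹ * (Real.pi * ‖U w‖ ^ 2) := by field_simp
      _ ≤ Real.pi⁻¹ * (Real.exp 1 * ∫ ξ in Metric.ball (0 : ℂ) 1, ‖U ((w : ℂ) + ρ * ξ)‖ ^ 2) := by gcongr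
      _ = _ := by ring
  have h5 : ∫ ξ in Metric.ball (0 : ℂ) 1, ‖U ((w : ℂ) + ρ * ξ)‖ ^ p ≤
      (ρ ^ 2)⁻¹ * ((2 * w.im) ^ 2 * ∫ z in Metric.ball w δ, ‖U (z : ℍ)‖ ^ p) := by
    rw [scale (F := fun z => ‖U z‖ ^ p) (w : ℂ) hρ]
    gcongr
    exact to_hyp hUp (fun z => by positivity) w hρ1 hρ2 hδ
  have hI0 : 0 ≤ ∫ ξ in Metric.ball (0 : ℂ) 1, ‖U ((w : ℂ) + ρ * ξ)‖ ^ 2 := integral_nonneg fun ξ => by positivity
  calc ‖U w‖ ^ p = (‖U w‖ ^ 2) ^ (p / 2) := (e3 _).symm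
    _ ≤ (Real.exp 1 * (Real.pi⁻¹ * ∫ ξ in Metric.ball (0 : ℂ) 1, ‖U ((w : ℂ) + ρ * ξ)‖ ^ 2)) ^ (p / 2) := by
        gcongr
    _ = Real.exp 1 ^ (p / 2) * (Real.pi⁻¹ * ∫ ξ in Metric.ball (0 : ℂ) 1, ‖U ((w : ℂ) + ρ * ξ)‖ ^ 2) ^ (p / 2) := by
        rw [Real.mul_rpow (by positivity) (by positivity)]
    _ ≤ Real.exp 1 ^ (p / 2) * (Real.pi⁻¹ * ((ρ ^ 2)⁻¹ * ((2 * w.im) ^ 2 *
          ∫ z in Metric.ball w δ, ‖U (z : ℍ)‖ ^ p))) := by
        gcongr
        exact h3.trans (mul_le_mul_of_nonneg_left h5 (by positivity))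
    _ = _ := by
        rw [hρd]
        field_simp
        ring

/-- **Part (2).** -/
theorem part_two (z₀ : ℍ) (r : ℝ) (hr : (∃ g : SL(2, ℤ), 1 < 2 * r * (g • z₀).im) ∨ 1 / √3 < r) (p : ℝ) (hp : 2 ≤ p)
    (Ω : Set ℂ) (hΩ : IsCompact Ω) (hΩ' : Ω ⊆ {z : ℂ | 0 < z.im}) :
    ∃ C : ℝ, 0 < C ∧ ∀ (U : ℂ → ℂ) (T : ℝ), 1 ≤ T → IsHeckeMaass U T → ∀ z ∈ Ω,
      ‖U z‖ ^ p ≤ C * T ^ 2 * ∫ z in Metric.ball z₀ r, ‖U (z : ℍ)‖ ^ p := by
  have hr' : ∃ g : SL(2, ℤ), 1 < 2 * r * (g • z₀).im := hr.elim id fun h => big_disc z₀ r h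
  obtain ⟨g, hg⟩ := hr'
  have hy := (g • z₀).im_pos
  obtain ⟨r', hr1, hr2⟩ : ∃ r' : ℝ, r' < r ∧ 1 < 2 * r' * (g • z₀).im := by
    refine ⟨(r + 1 / (2 * (g • z₀).im)) / 2, ?_, ?_⟩
    · have : 1 / (2 * (g • z₀).im) < r := by
        rw [div_lt_iff₀ (by positivity)]
        linarith
      linarith
    · have e : 2 * ((r + 1 / (2 * (g • z₀).im)) / 2) * (g • z₀).im = r * (g • z₀).im + 1 / 2 := by
        field_simp
      rw [e]
      linarith
  obtain ⟨C, hC, h⟩ := one_disc z₀ g r' hr2 Ω hΩ hΩ'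
  obtain ⟨C', hC', h'⟩ := part_one p hp (r - r') (by linarith)
  refine ⟨C ^ p * C', by positivity, fun U T hT hU z hz => ?_⟩
  obtain ⟨w, hw, hw'⟩ := h U T hU z hz
  have h1 := h' U T hT hU w
  have hUc : Continuous fun z : ℍ => ‖U z‖ ^ p :=
    ((hU.1.continuousOn.comp_continuous UpperHalfPlane.continuous_coe fun z => z.im_pos).norm).rpow_const
      fun z => Or.inr (by linarith)
  have h2 : ∫ z in Metric.ball w (r - r'), ‖U (z : ℍ)‖ ^ p ≤ ∫ z in Metric.ball z₀ r, ‖U (z : ℍ)‖ ^ p := by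
    refine setIntegral_mono_set ((hUc.continuousOn.integrableOn_compact (isCompact_closedBall z₀ r)).mono_set
      Metric.ball_subset_closedBall) (Eventually.of_forall fun z => by positivity) ?_
    refine Eventually.of_forall fun v hv => ?_
    have hv' : dist v w < r - r' := hv
    show dist v z₀ < r
    have := dist_triangle v w z₀
    linarith
  calc ‖U z‖ ^ p ≤ (C * ‖U w‖) ^ p := by gcongr
    _ = C ^ p * ‖U w‖ ^ p := Real.mul_rpow hC.le (norm_nonneg _)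
    _ ≤ C ^ p * (C' * T ^ 2 * ∫ z in Metric.ball w (r - r'), ‖U (z : ℍ)‖ ^ p) := by gcongr
    _ ≤ C ^ p * (C' * T ^ 2 * ∫ z in Metric.ball z₀ r, ‖U (z : ℍ)‖ ^ p) := by gcongr
    _ = _ := by ring

/-- the bound `T ^ s` for the `p`-th moment on the hyperbolic disc with centre `z₀` and radius `r` -/
def MomentBound (z₀ : ℍ) (r p s : ℝ) : Prop :=
  ∃ C : ℝ, ∀ (U : ℂ → ℂ) (T : ℝ), 1 ≤ T → IsHeckeMaass U T →
    ∫ z in Metric.ball z₀ r, ‖U (z : ℍ)‖ ^ p ≤ C * T ^ s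

lemma moment_of_sup (z₀ : ℍ) (r s : ℝ)
    (h : ∀ ε : ℝ, 0 < ε → ∀ Ω : Set ℂ, IsCompact Ω → Ω ⊆ {z : ℂ | 0 < z.im} → SupNormBound Ω (s + ε))
    (p : ℝ) (hp : 0 < p) (ε : ℝ) (hε : 0 < ε) : MomentBound z₀ r p (p * s + ε) := by
  obtain ⟨C, hC⟩ := h (ε / p) (by positivity) (UpperHalfPlane.coe '' Metric.closedBall z₀ r)
    ((isCompact_closedBall z₀ r).image UpperHalfPlane.continuous_coe) (by
      rintro _ ⟨z, -, rfl⟩
      exact z.im_pos)
  refine ⟨|C| ^ p * volume.real (Metric.ball z₀ r), fun U T hT hU => ?_⟩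
  have hT0 : 0 < T := by linarith
  have hUc : Continuous fun z : ℍ => ‖U z‖ ^ p :=
    ((hU.1.continuousOn.comp_continuous UpperHalfPlane.continuous_coe fun z => z.im_pos).norm).rpow_const
      fun z => Or.inr hp.le
  have hfin : volume (Metric.ball z₀ r) < ⊤ :=
    (measure_mono Metric.ball_subset_closedBall).trans_lt (isCompact_closedBall z₀ r).measure_lt_top
  have h1 : ∀ z ∈ Metric.ball z₀ r, ‖U (z : ℍ)‖ ^ p ≤ |C| ^ p * T ^ (p * s + ε) := by
    intro z hz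
    have h2 := hC U T hT hU z ⟨z, Metric.ball_subset_closedBall hz, rfl⟩
    have hTs : 0 ≤ T ^ (s + ε / p) := (Real.rpow_pos_of_pos hT0 _).le
    calc ‖U (z : ℍ)‖ ^ p ≤ (|C| * T ^ (s + ε / p)) ^ p := by
          gcongr
          exact h2.trans (mul_le_mul_of_nonneg_right (le_abs_self C) hTs)
      _ = |C| ^ p * T ^ (p * s + ε) := by
          rw [Real.mul_rpow (abs_nonneg _) hTs, ← Real.rpow_mul hT0.le]
          congr 2
          field_simp
  calc ∫ z in Metric.ball z₀ r, ‖U (z : ℍ)‖ ^ p ≤ ∫ z in Metric.ball z₀ r, |C| ^ p * T ^ (p * s + ε) :=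
        setIntegral_mono_on ((hUc.continuousOn.integrableOn_compact (isCompact_closedBall z₀ r)).mono_set
          Metric.ball_subset_closedBall) (integrableOn_const hfin.ne) Metric.isOpen_ball.measurableSet h1
    _ = _ := by
        rw [setIntegral_const, smul_eq_mul]
        ring

lemma sup_of_moment (z₀ : ℍ) (r : ℝ) (hr : (∃ g : SL(2, ℤ), 1 < 2 * r * (g • z₀).im) ∨ 1 / √3 < r) (s : ℝ)
    (h : ∀ P : ℝ, ∃ p : ℝ, P ≤ p ∧ ∀ ε : ℝ, 0 < ε → MomentBound z₀ r p (p * s + ε))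
    (ε : ℝ) (hε : 0 < ε) (Ω : Set ℂ) (hΩ : IsCompact Ω) (hΩ' : Ω ⊆ {z : ℂ | 0 < z.im}) :
    SupNormBound Ω (s + ε) := by
  obtain ⟨p, hp, h1⟩ := h (max 2 (3 / ε))
  have hp2 : 2 ≤ p := (le_max_left _ _).trans hp
  have hp0 : 0 < p := by linarith
  have hpε : 3 ≤ p * ε := by
    have := (le_max_right _ _).trans hp
    rwa [div_le_iff₀ hε] at this
  obtain ⟨B, hB⟩ := h1 1 one_pos
  obtain ⟨C, hC, h2⟩ := part_two z₀ r hr p hp2 Ω hΩ hΩ'
  refine ⟨(C * |B|) ^ (1 / p), fun U T hT hU z hz => ?_⟩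
  have hT0 : 0 < T := by linarith
  have h3 := h2 U T hT hU z hz
  have h4 := hB U T hT hU
  have hTs : 0 ≤ T ^ (p * s + 1) := (Real.rpow_pos_of_pos hT0 _).le
  have h5 : ‖U z‖ ^ p ≤ (C * |B|) * T ^ (p * (s + ε)) := by
    calc ‖U z‖ ^ p ≤ C * T ^ 2 * (|B| * T ^ (p * s + 1)) := by
          refine h3.trans ?_
          gcongr
          exact h4.trans (mul_le_mul_of_nonneg_right (le_abs_self B) hTs)
      _ = (C * |B|) * (T ^ (2 : ℝ) * T ^ (p * s + 1)) := by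
          rw [Real.rpow_two]
          ring
      _ = (C * |B|) * T ^ (2 + (p * s + 1)) := by rw [← Real.rpow_add hT0]
      _ ≤ (C * |B|) * T ^ (p * (s + ε)) := by
          gcongr
          linarith
  calc ‖U z‖ = (‖U z‖ ^ p) ^ (1 / p) := by
        rw [← Real.rpow_mul (norm_nonneg _), mul_one_div, div_self hp0.ne', Real.rpow_one]
    _ ≤ ((C * |B|) * T ^ (p * (s + ε))) ^ (1 / p) := by gcongr
    _ = (C * |B|) ^ (1 / p) * T ^ (s + ε) := by
        rw [Real.mul_rpow (by positivity) (Real.rpow_pos_of_pos hT0 _).le, ← Real.rpow_mul hT0.le]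
        congr 2
        field_simp

/-- **Main result.** All constants are independent of the form `U` and of `T`; `dμ = dx dy / y²`.
(1) Let `p ≥ 2`, `δ > 0`. There is `C` such that for every Hecke-Maass cusp form `U` with `T ≥ 1` and every
`w ∈ ℍ`: `|U w|^p ≤ C T² ∫ |U|^p dμ`, the integral over the hyperbolic disc of radius `δ` around `w`.
(2) Let `D` be the hyperbolic disc with centre `z₀` and radius `r`, and let some modular translate of `z₀`
have height greater than `1 / (2 r)` (which is the case for all `z₀` if `r > 1 / √3`). For `p ≥ 2` and compact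
`Ω` there is `C` with `|U z|^p ≤ C T² ∫_D |U|^p dμ` for all `z ∈ Ω`.
(3) For `D` as in (2) and every real `s` are equivalent: the sup-norm bounds with the exponents `s + ε`,
`ε > 0`, on all compact sets; the bounds `C T^(p s + ε)`, `ε > 0`, for `∫_D |U|^p dμ` for all `p > 0`; these
bounds for arbitrarily large `p`.
(4) Q1 (the sup-norm bounds `T^ε` on all compact sets) is equivalent to: for arbitrarily large `p`, the
moments `∫_D |U|^p dμ` are at most `C T^ε`, for each `ε > 0`. -/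
theorem result :
    (∀ p : ℝ, 2 ≤ p → ∀ δ : ℝ, 0 < δ → ∃ C : ℝ, 0 < C ∧ ∀ (U : ℂ → ℂ) (T : ℝ), 1 ≤ T →
      IsHeckeMaass U T → ∀ w : ℍ, ‖U w‖ ^ p ≤ C * T ^ 2 * ∫ z in Metric.ball w δ, ‖U (z : ℍ)‖ ^ p) ∧
    (∀ (z₀ : ℍ) (r : ℝ), ((∃ g : SL(2, ℤ), 1 < 2 * r * (g • z₀).im) ∨ 1 / √3 < r) →
      (∀ p : ℝ, 2 ≤ p → ∀ Ω : Set ℂ, IsCompact Ω → Ω ⊆ {z : ℂ | 0 < z.im} →
        ∃ C : ℝ, 0 < C ∧ ∀ (U : ℂ → ℂ) (T : ℝ), 1 ≤ T → IsHeckeMaass U T → ∀ z ∈ Ω,
          ‖U z‖ ^ p ≤ C * T ^ 2 * ∫ z in Metric.ball z₀ r, ‖U (z : ℍ)‖ ^ p) ∧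
      (∀ s : ℝ,
        ((∀ ε : ℝ, 0 < ε → ∀ Ω : Set ℂ, IsCompact Ω → Ω ⊆ {z : ℂ | 0 < z.im} → SupNormBound Ω (s + ε)) ↔
          ∀ p : ℝ, 0 < p → ∀ ε : ℝ, 0 < ε → MomentBound z₀ r p (p * s + ε)) ∧
        ((∀ ε : ℝ, 0 < ε → ∀ Ω : Set ℂ, IsCompact Ω → Ω ⊆ {z : ℂ | 0 < z.im} → SupNormBound Ω (s + ε)) ↔
          ∀ P : ℝ, ∃ p : ℝ, P ≤ p ∧ ∀ ε : ℝ, 0 < ε → MomentBound z₀ r p (p * s + ε))) ∧
      ((∀ Ω : Set ℂ, IsCompact Ω → Ω ⊆ {z : ℂ | 0 < z.im} → ∀ ε : ℝ, 0 < ε → SupNormBound Ω ε) ↔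
        ∀ P : ℝ, ∃ p : ℝ, P ≤ p ∧ ∀ ε : ℝ, 0 < ε → MomentBound z₀ r p ε)) := by
  have key : ∀ (z₀ : ℍ) (r : ℝ), ((∃ g : SL(2, ℤ), 1 < 2 * r * (g • z₀).im) ∨ 1 / √3 < r) → ∀ s : ℝ,
      (∀ ε : ℝ, 0 < ε → ∀ Ω : Set ℂ, IsCompact Ω → Ω ⊆ {z : ℂ | 0 < z.im} → SupNormBound Ω (s + ε)) ↔
        ∀ P : ℝ, ∃ p : ℝ, P ≤ p ∧ ∀ ε : ℝ, 0 < ε → MomentBound z₀ r p (p * s + ε) := fun z₀ r hr s =>
    ⟨fun h P => ⟨max P 1, le_max_left _ _, fun ε hε =>
      moment_of_sup z₀ r s h _ (lt_max_of_lt_right one_pos) ε hε⟩, sup_of_moment z₀ r hr s⟩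
  refine ⟨part_one, fun z₀ r hr => ⟨part_two z₀ r hr, fun s => ⟨⟨moment_of_sup z₀ r s, fun h => ?_⟩, key z₀ r hr s⟩, ?_⟩⟩
  · exact sup_of_moment z₀ r hr s fun P => ⟨max P 1, le_max_left _ _, fun ε hε =>
      h _ (lt_max_of_lt_right one_pos) ε hε⟩
  · have h0 := key z₀ r hr 0
    simp only [zero_add, mul_zero] at h0
    rw [← h0]
    exact ⟨fun h ε hε Ω h1 h2 => h Ω h1 h2 ε hε, fun h Ω h1 h2 ε hε => h ε hε Ω h1 h2⟩

end Pool.Agent.Results.MP_8fded1_nt.MomentsOnOneDisc
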