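import Mathlib
import Pool.Agent.Results.MP_8fded1_nt.MomentsOnOneDisc
import Pool.Agent.U14.MV.Osc

set_option autoImplicit false

/-!
# MP_8fded1_nt: the sup norm on compact sets is seen at the points of a net of one small disc

Let `U` be a Hecke-Maass cusp form for the full modular group with eigenvalue `1/4 + T²`, `T ≥ 1`. Let `D` be a
hyperbolic disc of radius `r` whose centre has a modular translate of height greater than `1 / (2 r)` (every
disc if `r > 1 / √3`; discs of arbitrarily small radius high in the cusp). No bound below depends on `U`.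

(1) There is `η > 0`, which depends only on `D`, with the following property. Let `S` be any set of points such
that every point of `D` is at distance at most `η / T` from `S` (for example a net with `O(T²)` points). Then for
every compact `Ω` there is `C`, which does not depend on `S`, such that `|U| ≤ C |U s|` on `Ω` for some `s` in `S`.
(2) So for every exponent the sup-norm bounds for all compact sets are equivalent to the bounds at the
points of such nets `S T`; in particular this is true for Q1.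

For eigenfunctions on surfaces without Hecke structure, the maximum over a compact set is at most `exp (C T)`
times the maximum over a smaller disc, and a net of a disc controls the values on a concentric smaller disc only
up to such a factor, as the maximum over the disc might be attained near the boundary.

Proof. (i) The values on the disc with radius `r + 1` are controlled by those on `D` (`one_disc`, from
`OneSmallDiscControls` by helper766): so the maximum `M` over the larger disc is at most `C₁ |U w|` for some `w` in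
`D`. (ii) For `‖z - w‖ ≤ ε s` and `s = ε Im w / T` we have `|U w| - |U z| ≤ 4 M (exp (40 ε²) (1 + ε)² - 1)`: apply the
mean value inequality to the nonnegative functions `2 M + Re (c U)` and `2 M - Re (c U)` on the discs of
radius `s` around `w` and `(1 + ε) s` around `z`; the second disc contains the first (`Pool.Agent.U14.MV.osc`).
If `ε` is small, the right-hand side is at most `|U w| / 2`, and `|U w| ≤ 2 |U z|`.
-/

namespace Pool.Agent.Results.MP_8fded1_nt.NetsOfOneDisc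

open Filter UpperHalfPlane MeasureTheory Topology
open scoped MatrixGroups
open Pool.Agent.Results.MP_8fded1_nt.EllipticPointIsHarmless (IsHeckeMaass SupNormBound)
open Pool.Agent.Results.MP_8fded1_nt.MomentsOnOneDisc (one_disc big_disc)

/-- the oscillation of a Hecke-Maass form at the scale `ε² / T` -/
theorem osc_form {U : ℂ → ℂ} {T : ℝ} (hT : 1 ≤ T) (hU : IsHeckeMaass U T) {ε M : ℝ} (hε0 : 0 < ε) (hε : ε ≤ 1 / 16)
    (w z : ℍ) (hzw : ‖(z : ℂ) - w‖ ≤ ε * (ε * w.im / T))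
    (hM : ∀ x : ℂ, ‖x - w‖ ≤ 3 * (ε * w.im / T) → ‖U x‖ ≤ M) :
    ‖U w‖ - ‖U z‖ ≤ 4 * M * (Real.exp (8 * ε ^ 2) * (1 + ε) ^ 2 - 1) := by
  have hy := w.im_pos
  have hT0 : 0 < T := by linarith
  set s : ℝ := ε * w.im / T with hs
  have hs0 : 0 < s := by positivity
  have hsε : s ≤ ε * w.im := div_le_self (by positivity) hT
  have hM0 : 0 ≤ M := (norm_nonneg _).trans (hM w (by simp; positivity))
  have him : ∀ x : ℂ, ‖x - w‖ ≤ 3 * s → w.im / 2 ≤ x.im := by
    intro x hx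
    have h1 := Complex.abs_im_le_norm (x - w)
    rw [Complex.sub_im, UpperHalfPlane.coe_im] at h1
    have := (abs_le.1 (h1.trans hx)).1
    nlinarith
  have h1 := Pool.Agent.U14.MV.osc hU.1 (w := (w : ℂ)) (z := (z : ℂ)) (s := s) (ε := ε)
    (V₀ := (1 / 4 + T ^ 2) / (w.im / 2) ^ 2) (M := M) hs0 hε0.le (by linarith)
    (by
      rw [UpperHalfPlane.coe_im]
      nlinarith) hzw (fun x => (1 / 4 + T ^ 2) / x.im ^ 2) (fun x hx => ⟨by positivity, by
        have := him x hx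
        gcongr⟩) hM (fun x hx => by
      have hz0 : 0 < x.im := lt_of_lt_of_le (by positivity) (him x hx)
      have h2 := hU.2.2.1 x hz0
      have hz1 : (x.im : ℂ) ≠ 0 := by exact_mod_cast hz0.ne'
      set A := deriv (deriv (fun t : ℝ => U (x + (t : ℂ)))) 0 +
        deriv (deriv (fun t : ℝ => U (x + (t : ℂ) * Complex.I))) 0 with hA
      push_cast
      field_simp
      linear_combination -4 * h2)
  refine h1.trans ?_
  have h2 : (1 / 4 + T ^ 2) / (w.im / 2) ^ 2 * s ^ 2 ≤ 8 * ε ^ 2 := by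
    have e : (1 / 4 + T ^ 2) / (w.im / 2) ^ 2 * s ^ 2 = 4 * ((1 / 4 + T ^ 2) / T ^ 2) * ε ^ 2 := by
      rw [hs]
      field_simp
      ring
    rw [e]
    have h3 : (1 / 4 + T ^ 2) / T ^ 2 ≤ 2 := by
      rw [div_le_iff₀ (by positivity)]
      nlinarith
    nlinarith [sq_nonneg ε]
  have h3 := Real.exp_le_exp.2 h2
  have h4 : 0 ≤ (1 + ε) ^ 2 := by positivity
  gcongr

lemma small (θ : ℝ) (hθ : 0 < θ) : ∃ ε : ℝ, 0 < ε ∧ ε ≤ 1 / 16 ∧ 4 * (Real.exp (8 * ε ^ 2) * (1 + ε) ^ 2 - 1) ≤ θ := by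
  have hc : Continuous fun ε : ℝ => 4 * (Real.exp (8 * ε ^ 2) * (1 + ε) ^ 2 - 1) := by fun_prop
  have h1 : ∀ᶠ ε in 𝓝 (0 : ℝ), 4 * (Real.exp (8 * ε ^ 2) * (1 + ε) ^ 2 - 1) < θ := by
    refine hc.continuousAt.eventually (gt_mem_nhds ?_)
    simpa using hθ
  obtain ⟨δ, hδ, h⟩ := Metric.eventually_nhds_iff.1 h1
  refine ⟨min (δ / 2) (1 / 16), by positivity, min_le_right _ _, (h ?_).le⟩
  rw [Real.dist_eq, sub_zero, abs_of_pos (by positivity)]
  exact (min_le_left _ _).trans_lt (by linarith)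

/-- every point of the disc with centre `z₀` and radius `r` has distance at most `η / T` from `S` -/
def IsNet (z₀ : ℍ) (r η T : ℝ) (S : Set ℍ) : Prop := ∀ w ∈ Metric.ball z₀ r, ∃ s ∈ S, dist s w ≤ η / T

/-- **Part (1).** -/
theorem part_one (z₀ : ℍ) (r : ℝ) (hr : (∃ g : SL(2, ℤ), 1 < 2 * r * (g • z₀).im) ∨ 1 / √3 < r) :
    ∃ η : ℝ, 0 < η ∧ ∀ Ω : Set ℂ, IsCompact Ω → Ω ⊆ {z : ℂ | 0 < z.im} → ∃ C : ℝ, 0 < C ∧
      ∀ (U : ℂ → ℂ) (T : ℝ), 1 ≤ T → IsHeckeMaass U T → ∀ S : Set ℍ, IsNet z₀ r η T S →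
        ∃ s ∈ S, ∀ z ∈ Ω, ‖U z‖ ≤ C * ‖U (s : ℍ)‖ := by
  have hr' : ∃ g : SL(2, ℤ), 1 < 2 * r * (g • z₀).im := hr.elim id fun h => big_disc z₀ r h
  obtain ⟨g, hg⟩ := hr'
  have hy := (g • z₀).im_pos
  have hr0 : 0 < r := by
    by_contra h
    push Not at h
    nlinarith
  have hcomp : IsCompact (UpperHalfPlane.coe '' Metric.closedBall z₀ (r + 1)) :=
    (isCompact_closedBall z₀ (r + 1)).image UpperHalfPlane.continuous_coe
  have hpos : UpperHalfPlane.coe '' Metric.closedBall z₀ (r + 1) ⊆ {z : ℂ | 0 < z.im} := by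
    rintro _ ⟨z, -, rfl⟩
    exact z.im_pos
  obtain ⟨C₁, hC₁, h1⟩ := one_disc z₀ g r hg _ hcomp hpos
  obtain ⟨ε, hε0, hε, hθ⟩ := small (1 / (2 * C₁)) (by positivity)
  refine ⟨ε ^ 2 / 2, by positivity, fun Ω hΩ hΩ' => ?_⟩
  obtain ⟨C₂, hC₂, h2⟩ := one_disc z₀ g r hg Ω hΩ hΩ'
  refine ⟨C₂ * (2 * C₁), by positivity, fun U T hT hU S hS => ?_⟩
  have hT0 : 0 < T := by linarith
  -- the maximum
  obtain ⟨x, hx, hmax⟩ := hcomp.exists_isMaxOn (f := fun z => ‖U z‖) ⟨z₀, z₀, by simp; linarith, rfl⟩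
    ((hU.1.continuousOn.mono hpos).norm)
  obtain ⟨w, hw, hxw⟩ := h1 U T hU x hx
  obtain ⟨s, hs, hsw⟩ := hS w hw
  refine ⟨s, hs, ?_⟩
  set M : ℝ := ‖U x‖ with hM
  have hwy := w.im_pos
  have hball : ∀ v : ℂ, ‖v - w‖ ≤ 3 * (ε * w.im / T) → ‖U v‖ ≤ M := by
    intro v hv
    have h3 : ε * w.im / T ≤ ε * w.im := div_le_self (by positivity) hT
    have h4 : ‖v - w‖ ≤ 3 * ε * w.im := by linarith
    have h5 := Complex.abs_im_le_norm (v - w)
    rw [Complex.sub_im, UpperHalfPlane.coe_im] at h5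
    have h6 : 3 / 4 * w.im ≤ v.im := by
      have := (abs_le.1 (h5.trans h4)).1
      nlinarith
    have hv0 : 0 < v.im := lt_of_lt_of_le (by positivity) h6
    refine hmax ⟨⟨v, hv0⟩, ?_, rfl⟩
    have h7 : w.im / 2 ≤ √(v.im * w.im) := by
      refine Real.le_sqrt_of_sq_le ?_
      nlinarith
    have h8 : dist (⟨v, hv0⟩ : ℍ) w ≤ 1 := by
      calc dist (⟨v, hv0⟩ : ℍ) w ≤ dist v w / √(v.im * w.im) := dist_le_dist_coe_div_sqrt _ w
        _ ≤ dist v w / (w.im / 2) := by gcongr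
        _ ≤ (3 * ε * w.im) / (w.im / 2) := by
            gcongr
            rw [dist_eq_norm]
            exact h4
        _ = 6 * ε := by field_simp; ring
        _ ≤ 1 := by linarith
    have h9 : dist w z₀ < r := hw
    have h10 := dist_triangle (⟨v, hv0⟩ : ℍ) w z₀
    rw [Metric.mem_closedBall]
    linarith
  have hsw' : ‖(s : ℂ) - w‖ ≤ ε * (ε * w.im / T) := by
    have h3 := dist_coe_le s w
    rw [dist_eq_norm] at h3
    have h4 : ε ^ 2 / 2 / T ≤ 1 := by
      rw [div_le_one hT0]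
      nlinarith
    have h5 : Real.exp (dist s w) - 1 ≤ 2 * (ε ^ 2 / 2 / T) := by
      have h6 : |dist s w| ≤ 1 := by
        rw [abs_of_nonneg dist_nonneg]
        exact hsw.trans h4
      have h7 := (le_abs_self _).trans (Real.abs_exp_sub_one_le h6)
      rw [abs_of_nonneg dist_nonneg] at h7
      linarith
    calc ‖(s : ℂ) - w‖ ≤ w.im * (Real.exp (dist s w) - 1) := h3
      _ ≤ w.im * (2 * (ε ^ 2 / 2 / T)) := by gcongr
      _ = _ := by ring
  have h3 := osc_form hT hU hε0 hε w s hsw' hball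
  have hM0 : 0 ≤ M := norm_nonneg _
  have h4 : 4 * M * (Real.exp (8 * ε ^ 2) * (1 + ε) ^ 2 - 1) ≤ ‖U w‖ / 2 := by
    calc 4 * M * (Real.exp (8 * ε ^ 2) * (1 + ε) ^ 2 - 1) = M * (4 * (Real.exp (8 * ε ^ 2) * (1 + ε) ^ 2 - 1)) := by ring
      _ ≤ M * (1 / (2 * C₁)) := by gcongr
      _ ≤ (C₁ * ‖U w‖) * (1 / (2 * C₁)) := by gcongr
      _ = ‖U w‖ / 2 := by field_simp
  have h5 : ‖U w‖ ≤ 2 * ‖U s‖ := by linarith
  intro z hz
  obtain ⟨v, hv, hzv⟩ := h2 U T hU z hz
  have h6 : ‖U v‖ ≤ M := hmax ⟨v, by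
    have : dist v z₀ < r := hv
    rw [Metric.mem_closedBall]
    linarith, rfl⟩
  calc ‖U z‖ ≤ C₂ * ‖U v‖ := hzv
    _ ≤ C₂ * (C₁ * (2 * ‖U s‖)) := by
        gcongr
        exact h6.trans (hxw.trans (by gcongr))
    _ = _ := by ring

/-- **Main result.** All constants are independent of the form `U` and of `T`. Let `D` be the hyperbolic disc with
centre `z₀` and radius `r`, and let some modular translate of `z₀` have height greater than `1 / (2 r)` (which is
the case for all `z₀` if `r > 1 / √3`). There is `η > 0` such that: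
(1) for every compact `Ω` there is `C` such that for every Hecke-Maass form `U`, `T ≥ 1`, and every set `S` such
that every point of `D` is at distance at most `η / T` from `S` there is `s ∈ S` with `|U z| ≤ C |U s|` for all
`z ∈ Ω`;
(2) if for each `T ≥ 1` such a set `S T` is given, contained in `D`, then for every exponent `a` the sup-norm
bounds with the exponent `a` on all compact sets are equivalent to the bound `C T^a` at the points of `S T`; and
Q1 is equivalent to the bounds `C T^ε`, `ε > 0`, at the points of `S T`. -/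
theorem result (z₀ : ℍ) (r : ℝ) (hr : (∃ g : SL(2, ℤ), 1 < 2 * r * (g • z₀).im) ∨ 1 / √3 < r) :
    ∃ η : ℝ, 0 < η ∧
      (∀ Ω : Set ℂ, IsCompact Ω → Ω ⊆ {z : ℂ | 0 < z.im} → ∃ C : ℝ, 0 < C ∧
        ∀ (U : ℂ → ℂ) (T : ℝ), 1 ≤ T → IsHeckeMaass U T → ∀ S : Set ℍ, IsNet z₀ r η T S →
          ∃ s ∈ S, ∀ z ∈ Ω, ‖U z‖ ≤ C * ‖U (s : ℍ)‖) ∧
      ∀ S : ℝ → Set ℍ, (∀ T, 1 ≤ T → IsNet z₀ r η T (S T) ∧ S T ⊆ Metric.ball z₀ r) →
        (∀ a : ℝ, (∀ Ω : Set ℂ, IsCompact Ω → Ω ⊆ {z : ℂ | 0 < z.im} → SupNormBound Ω a) ↔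
          ∃ C : ℝ, ∀ (U : ℂ → ℂ) (T : ℝ), 1 ≤ T → IsHeckeMaass U T → ∀ s ∈ S T, ‖U (s : ℍ)‖ ≤ C * T ^ a) ∧
        ((∀ Ω : Set ℂ, IsCompact Ω → Ω ⊆ {z : ℂ | 0 < z.im} → ∀ ε : ℝ, 0 < ε → SupNormBound Ω ε) ↔
          ∀ ε : ℝ, 0 < ε → ∃ C : ℝ, ∀ (U : ℂ → ℂ) (T : ℝ), 1 ≤ T → IsHeckeMaass U T →
            ∀ s ∈ S T, ‖U (s : ℍ)‖ ≤ C * T ^ ε) := by
  obtain ⟨η, hη, h⟩ := part_one z₀ r hr
  refine ⟨η, hη, h, fun S hS => ?_⟩
  have key : ∀ a : ℝ, (∀ Ω : Set ℂ, IsCompact Ω → Ω ⊆ {z : ℂ | 0 < z.im} → SupNormBound Ω a) ↔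
      ∃ C : ℝ, ∀ (U : ℂ → ℂ) (T : ℝ), 1 ≤ T → IsHeckeMaass U T → ∀ s ∈ S T, ‖U (s : ℍ)‖ ≤ C * T ^ a := by
    intro a
    constructor
    · intro hb
      obtain ⟨C, hC⟩ := hb (UpperHalfPlane.coe '' Metric.closedBall z₀ r)
        ((isCompact_closedBall z₀ r).image UpperHalfPlane.continuous_coe) (by
          rintro _ ⟨z, -, rfl⟩
          exact z.im_pos)
      exact ⟨C, fun U T hT hU s hs => hC U T hT hU s ⟨s, Metric.ball_subset_closedBall ((hS T hT).2 hs), rfl⟩⟩
    · rintro ⟨C, hC⟩ Ω hΩ hΩ'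
      obtain ⟨C', hC', h1⟩ := h Ω hΩ hΩ'
      refine ⟨C' * C, fun U T hT hU z hz => ?_⟩
      obtain ⟨s, hs, h2⟩ := h1 U T hT hU (S T) (hS T hT).1
      calc ‖U z‖ ≤ C' * ‖U s‖ := h2 z hz
        _ ≤ C' * (C * T ^ a) := by
            gcongr
            exact hC U T hT hU s hs
        _ = _ := by ring
  refine ⟨key, ?_⟩
  constructor
  · intro hb ε hε
    exact (key ε).1 fun Ω h1 h2 => hb Ω h1 h2 ε hε
  · intro hb Ω h1 h2 ε hε
    exact (key ε).2 (hb ε hε) Ω h1 h2

end Pool.Agent.Results.MP_8fded1_nt.NetsOfOneDisc
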