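import Mathlib
import Pool.Agent.Results.MP_8fded1_nt.MomentsOnOneDisc
import Pool.Agent.Results.MP_8fded1_nt.NetsOfOneDisc
import Pool.Agent.U14.MV.Osc

set_option autoImplicit false

/-!
# MP_8fded1_nt: large values on compact sets fill discs of radius `η / T` in one small disc

Let `U` be a Hecke-Maass cusp form for the full modular group with eigenvalue `1/4 + T²`, `T ≥ 1`. Let `D` be a
hyperbolic disc of radius `r` whose centre has a modular translate of height greater than `1 / (2 r)` (every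
disc if `r > 1 / √3`; discs of arbitrarily small radius high in the cusp). No bound below depends on `U`.

(1) There is `η > 0`, which depends only on `D`, and for every compact `Ω` there is `C` such that for every `U` there is
a disc `B` of radius `η / T` contained in `D` with `|U z| ≤ C |U v|` for ALL `z` in `Ω` and ALL `v` in `B`.
(2) So for every exponent `a` the sup-norm bounds with the exponent `a` on all compact sets are equivalent to a
bound for the area of one set: the set of the points of `D` with `|U| ≥ C T^a` has area less than `c₀ / T²`,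
where `c₀ > 0` depends only on `D`. In particular Q1 is a question on the distribution of the values of `U` on
`D`, for sets of the area of one square of the wave length.

Proof. As in `NetsOfOneDisc`: the maximum `M` of `|U|` over a larger disc is at most `C₁ |U w|` for some `w` in a
smaller concentric disc, by the Hecke relations (`one_disc`, from `OneSmallDiscControls` by helper766), and
`|U w| - |U v| ≤ θ M` if `v` is so near to `w`, where `θ` is as small as one likes.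
-/

namespace Pool.Agent.Results.MP_8fded1_nt.LargeValuesFillDiscs

open Filter UpperHalfPlane MeasureTheory Topology
open scoped MatrixGroups
open Pool.Agent.Results.MP_8fded1_nt.EllipticPointIsHarmless (IsHeckeMaass SupNormBound)
open Pool.Agent.Results.MP_8fded1_nt.MomentsOnOneDisc (one_disc big_disc to_hyp)
open Pool.Agent.Results.MP_8fded1_nt.NetsOfOneDisc (osc_form small)

/-- **Part (1).** -/
theorem fill (z₀ : ℍ) (r : ℝ) (hr : (∃ g : SL(2, ℤ), 1 < 2 * r * (g • z₀).im) ∨ 1 / √3 < r) :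
    ∃ η : ℝ, 0 < η ∧ η ≤ 1 ∧ ∀ Ω : Set ℂ, IsCompact Ω → Ω ⊆ {z : ℂ | 0 < z.im} → ∃ C : ℝ, 0 < C ∧
      ∀ (U : ℂ → ℂ) (T : ℝ), 1 ≤ T → IsHeckeMaass U T → ∃ w : ℍ, Metric.ball w (η / T) ⊆ Metric.ball z₀ r ∧
        ∀ v ∈ Metric.ball w (η / T), ∀ z ∈ Ω, ‖U z‖ ≤ C * ‖U (v : ℍ)‖ := by
  have hr' : ∃ g : SL(2, ℤ), 1 < 2 * r * (g • z₀).im := hr.elim id fun h => big_disc z₀ r h
  obtain ⟨g, hg⟩ := hr'
  have hy := (g • z₀).im_pos
  obtain ⟨r', hr1, hr2⟩ : ∃ r' : ℝ, r' < r ∧ 1 < 2 * r' * (g • z₀).im := by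
    refine ⟨(r + 1 / (2 * (g • z₀).im)) / 2, ?_, ?_⟩
    · have : 1 / (2 * (g • z₀).im) < r := by
        rw [div_lt_iff₀ (by positivity)]
        linarith
      linarith
    · have e : 2 * ((r + 1 / (2 * (g • z₀).im)) / 2) * (g • z₀).im = r * (g • z₀).im + 1 / 2 := by
        field_simp
      rw [e]
      linarith
  have hr0 : 0 < r' := by
    by_contra h
    push Not at h
    nlinarith
  have hcomp : IsCompact (UpperHalfPlane.coe '' Metric.closedBall z₀ (r + 1)) :=
    (isCompact_closedBall z₀ (r + 1)).image UpperHalfPlane.continuous_coe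
  have hpos : UpperHalfPlane.coe '' Metric.closedBall z₀ (r + 1) ⊆ {z : ℂ | 0 < z.im} := by
    rintro _ ⟨z, -, rfl⟩
    exact z.im_pos
  obtain ⟨C₁, hC₁, h1⟩ := one_disc z₀ g r' hr2 _ hcomp hpos
  obtain ⟨ε, hε0, hε, hθ⟩ := small (1 / (2 * C₁)) (by positivity)
  have hd0 : 0 < r - r' := by linarith
  refine ⟨min (ε ^ 2 / 2) (r - r'), by positivity, (min_le_left _ _).trans (by nlinarith), fun Ω hΩ hΩ' => ?_⟩
  obtain ⟨C₂, hC₂, h2⟩ := one_disc z₀ g r' hr2 Ω hΩ hΩ'
  refine ⟨C₂ * (2 * C₁), by positivity, fun U T hT hU => ?_⟩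
  have hT0 : 0 < T := by linarith
  -- the maximum
  obtain ⟨x, hx, hmax⟩ := hcomp.exists_isMaxOn (f := fun z => ‖U z‖) ⟨z₀, z₀, by simp; linarith, rfl⟩
    ((hU.1.continuousOn.mono hpos).norm)
  obtain ⟨w, hw, hxw⟩ := h1 U T hU x hx
  have hη1 : min (ε ^ 2 / 2) (r - r') / T ≤ ε ^ 2 / 2 / T := by
    gcongr
    exact min_le_left _ _
  have hη2 : min (ε ^ 2 / 2) (r - r') / T ≤ r - r' :=
    (div_le_self (by positivity) hT).trans (min_le_right _ _)
  refine ⟨w, fun v hv => ?_, fun v hv => ?_⟩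
  · have hv' : dist v w < min (ε ^ 2 / 2) (r - r') / T := hv
    show dist v z₀ < r
    have := dist_triangle v w z₀
    linarith
  have hsw : dist v w ≤ ε ^ 2 / 2 / T := by
    have hv' : dist v w < min (ε ^ 2 / 2) (r - r') / T := hv
    linarith
  set M : ℝ := ‖U x‖ with hM
  have hwy := w.im_pos
  have hball : ∀ v : ℂ, ‖v - w‖ ≤ 3 * (ε * w.im / T) → ‖U v‖ ≤ M := by
    intro v hv
    have h3 : ε * w.im / T ≤ ε * w.im := div_le_self (by positivity) hT
    have h4 : ‖v - w‖ ≤ 3 * ε * w.im := by linarith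
    have h5 := Complex.abs_im_le_norm (v - w)
    rw [Complex.sub_im, UpperHalfPlane.coe_im] at h5
    have h6 : 3 / 4 * w.im ≤ v.im := by
      have := (abs_le.1 (h5.trans h4)).1
      nlinarith
    have hv0 : 0 < v.im := lt_of_lt_of_le (by positivity) h6
    refine hmax ⟨⟨v, hv0⟩, ?_, rfl⟩
    have h7 : w.im / 2 ≤ √(v.im * w.im) := by
      refine Real.le_sqrt_of_sq_le ?_
      nlinarith
    have h8 : dist (⟨v, hv0⟩ : ℍ) w ≤ 1 := by
      calc dist (⟨v, hv0⟩ : ℍ) w ≤ dist v w / √(v.im * w.im) := dist_le_dist_coe_div_sqrt _ w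
        _ ≤ dist v w / (w.im / 2) := by gcongr
        _ ≤ (3 * ε * w.im) / (w.im / 2) := by
            gcongr
            rw [dist_eq_norm]
            exact h4
        _ = 6 * ε := by field_simp; ring
        _ ≤ 1 := by linarith
    have h9 : dist w z₀ < r' := hw
    have h10 := dist_triangle (⟨v, hv0⟩ : ℍ) w z₀
    rw [Metric.mem_closedBall]
    linarith
  have hsw' : ‖(v : ℂ) - w‖ ≤ ε * (ε * w.im / T) := by
    have h3 := dist_coe_le v w
    rw [dist_eq_norm] at h3
    have h4 : ε ^ 2 / 2 / T ≤ 1 := by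
      rw [div_le_one hT0]
      nlinarith
    have h5 : Real.exp (dist v w) - 1 ≤ 2 * (ε ^ 2 / 2 / T) := by
      have h6 : |dist v w| ≤ 1 := by
        rw [abs_of_nonneg dist_nonneg]
        exact hsw.trans h4
      have h7 := (le_abs_self _).trans (Real.abs_exp_sub_one_le h6)
      rw [abs_of_nonneg dist_nonneg] at h7
      linarith
    calc ‖(v : ℂ) - w‖ ≤ w.im * (Real.exp (dist v w) - 1) := h3
      _ ≤ w.im * (2 * (ε ^ 2 / 2 / T)) := by gcongr
      _ = _ := by ring
  have h3 := osc_form hT hU hε0 hε w v hsw' hball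
  have hM0 : 0 ≤ M := norm_nonneg _
  have h4 : 4 * M * (Real.exp (8 * ε ^ 2) * (1 + ε) ^ 2 - 1) ≤ ‖U w‖ / 2 := by
    calc 4 * M * (Real.exp (8 * ε ^ 2) * (1 + ε) ^ 2 - 1) = M * (4 * (Real.exp (8 * ε ^ 2) * (1 + ε) ^ 2 - 1)) := by ring
      _ ≤ M * (1 / (2 * C₁)) := by gcongr
      _ ≤ (C₁ * ‖U w‖) * (1 / (2 * C₁)) := by gcongr
      _ = ‖U w‖ / 2 := by field_simp
  have h5 : ‖U w‖ ≤ 2 * ‖U v‖ := by linarith
  intro z hz
  obtain ⟨y, hyb, hzy⟩ := h2 U T hU z hz
  have h6 : ‖U y‖ ≤ M := hmax ⟨y, by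
    have : dist y z₀ < r' := hyb
    rw [Metric.mem_closedBall]
    linarith, rfl⟩
  calc ‖U z‖ ≤ C₂ * ‖U y‖ := hzy
    _ ≤ C₂ * (C₁ * (2 * ‖U v‖)) := by
        gcongr
        exact h6.trans (hxw.trans (by gcongr))
    _ = _ := by ring

lemma vol_ge (w : ℍ) (δ : ℝ) (hδ : 0 < δ) (hδ1 : δ ≤ 1) : Real.pi * δ ^ 2 / 64 ≤ volume.real (Metric.ball w δ) := by
  have hy := w.im_pos
  have hρ : 0 < δ / 4 * w.im := by positivity
  have h1 := to_hyp (F := fun _ => 1) continuousOn_const (fun _ => zero_le_one) w (ρ := δ / 4 * w.im) (δ := δ)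
    (by nlinarith) le_rfl hδ
  have h2 := Pool.Agent.U14.MV.scale' (F := fun _ => (1 : ℝ)) (w : ℂ) hρ
  have hvol : volume.real (Metric.ball (0 : ℂ) 1) = Real.pi := Pool.Agent.R737.HO.volume_real_ball
  rw [setIntegral_const, setIntegral_const, hvol, smul_eq_mul, smul_eq_mul, mul_one, mul_one] at h2
  rw [setIntegral_const, setIntegral_const, smul_eq_mul, smul_eq_mul, mul_one, mul_one] at h1
  have h3 : volume.real (Metric.ball (w : ℂ) (δ / 4 * w.im)) = Real.pi * (δ / 4 * w.im) ^ 2 := by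
    rw [h2]
    field_simp
  rw [h3] at h1
  have h4 : (2 * w.im) ^ 2 * (Real.pi * δ ^ 2 / 64) ≤ (2 * w.im) ^ 2 * volume.real (Metric.ball w δ) := by
    refine le_trans (le_of_eq ?_) h1
    ring
  exact le_of_mul_le_mul_left h4 (by positivity)

/-- **Main result.** All constants are independent of the form `U` and of `T`; the area is that of `dx dy / y²`. Let
`D` be the hyperbolic disc with centre `z₀` and radius `r`, and let some modular translate of `z₀` have height
greater than `1 / (2 r)` (which is the case for all `z₀` if `r > 1 / √3`). There are `η > 0` and `c₀ > 0` such that: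
(1) for every compact `Ω` there is `C` such that for every Hecke-Maass form `U` with `T ≥ 1` there is a disc `B` of
radius `η / T` contained in `D` with `|U z| ≤ C |U v|` for all `z ∈ Ω` and all `v ∈ B`;
(2) for every exponent `a` the sup-norm bounds with the exponent `a` on all compact sets are equivalent to: there is
`C` such that the set of the `z ∈ D` with `|U z| ≥ C T^a` has area less than `c₀ / T²` for all `U`, `T ≥ 1`;
(3) Q1 is equivalent to: for every `ε > 0` there is `C` such that the set of the `z ∈ D` with `|U z| ≥ C T^ε` has area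
less than `c₀ / T²` for all `U`, `T ≥ 1`. -/
theorem result (z₀ : ℍ) (r : ℝ) (hr : (∃ g : SL(2, ℤ), 1 < 2 * r * (g • z₀).im) ∨ 1 / √3 < r) :
    ∃ η c₀ : ℝ, 0 < η ∧ 0 < c₀ ∧
      (∀ Ω : Set ℂ, IsCompact Ω → Ω ⊆ {z : ℂ | 0 < z.im} → ∃ C : ℝ, 0 < C ∧
        ∀ (U : ℂ → ℂ) (T : ℝ), 1 ≤ T → IsHeckeMaass U T → ∃ w : ℍ, Metric.ball w (η / T) ⊆ Metric.ball z₀ r ∧
          ∀ v ∈ Metric.ball w (η / T), ∀ z ∈ Ω, ‖U z‖ ≤ C * ‖U (v : ℍ)‖) ∧
      (∀ a : ℝ, (∀ Ω : Set ℂ, IsCompact Ω → Ω ⊆ {z : ℂ | 0 < z.im} → SupNormBound Ω a) ↔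
        ∃ C : ℝ, ∀ (U : ℂ → ℂ) (T : ℝ), 1 ≤ T → IsHeckeMaass U T →
          volume.real {z : ℍ | z ∈ Metric.ball z₀ r ∧ C * T ^ a ≤ ‖U (z : ℍ)‖} < c₀ / T ^ 2) ∧
      ((∀ Ω : Set ℂ, IsCompact Ω → Ω ⊆ {z : ℂ | 0 < z.im} → ∀ ε : ℝ, 0 < ε → SupNormBound Ω ε) ↔
        ∀ ε : ℝ, 0 < ε → ∃ C : ℝ, ∀ (U : ℂ → ℂ) (T : ℝ), 1 ≤ T → IsHeckeMaass U T →
          volume.real {z : ℍ | z ∈ Metric.ball z₀ r ∧ C * T ^ ε ≤ ‖U (z : ℍ)‖} < c₀ / T ^ 2) := by
  obtain ⟨η, hη, hη1, h⟩ := fill z₀ r hr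
  have hpi := Real.pi_pos
  refine ⟨η, Real.pi * η ^ 2 / 64, hη, by positivity, h, ?_⟩
  have key : ∀ a : ℝ, (∀ Ω : Set ℂ, IsCompact Ω → Ω ⊆ {z : ℂ | 0 < z.im} → SupNormBound Ω a) ↔
      ∃ C : ℝ, ∀ (U : ℂ → ℂ) (T : ℝ), 1 ≤ T → IsHeckeMaass U T →
        volume.real {z : ℍ | z ∈ Metric.ball z₀ r ∧ C * T ^ a ≤ ‖U (z : ℍ)‖} < Real.pi * η ^ 2 / 64 / T ^ 2 := by
    intro a
    constructor
    · intro hb
      obtain ⟨C, hC⟩ := hb (UpperHalfPlane.coe '' Metric.closedBall z₀ r)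
        ((isCompact_closedBall z₀ r).image UpperHalfPlane.continuous_coe) (by
          rintro _ ⟨z, -, rfl⟩
          exact z.im_pos)
      refine ⟨C + 1, fun U T hT hU => ?_⟩
      have hT0 : 0 < T := by linarith
      have hTa : 0 < T ^ a := Real.rpow_pos_of_pos hT0 a
      have hE : {z : ℍ | z ∈ Metric.ball z₀ r ∧ (C + 1) * T ^ a ≤ ‖U (z : ℍ)‖} = ∅ := by
        rw [Set.eq_empty_iff_forall_notMem]
        rintro z ⟨hz1, hz2⟩
        have := hC U T hT hU z ⟨z, Metric.ball_subset_closedBall hz1, rfl⟩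
        linarith
      rw [hE, measureReal_empty]
      positivity
    · rintro ⟨C, hC⟩ Ω hΩ hΩ'
      obtain ⟨C', hC', h1⟩ := h Ω hΩ hΩ'
      refine ⟨C' * C, fun U T hT hU z hz => ?_⟩
      have hT0 : 0 < T := by linarith
      obtain ⟨w, hw, h2⟩ := h1 U T hT hU
      by_contra hcon
      push Not at hcon
      have hsub : Metric.ball w (η / T) ⊆ {z : ℍ | z ∈ Metric.ball z₀ r ∧ C * T ^ a ≤ ‖U (z : ℍ)‖} := by
        intro v hv
        refine ⟨hw hv, ?_⟩
        have h3 := h2 v hv z hz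
        have h4 : C' * (C * T ^ a) < C' * ‖U v‖ := by
          calc C' * (C * T ^ a) = C' * C * T ^ a := by ring
            _ < ‖U z‖ := hcon
            _ ≤ _ := h3
        exact (lt_of_mul_lt_mul_left h4 hC'.le).le
      have hfin : volume {z : ℍ | z ∈ Metric.ball z₀ r ∧ C * T ^ a ≤ ‖U (z : ℍ)‖} ≠ ⊤ := by
        refine ((measure_mono fun z hz => Metric.ball_subset_closedBall hz.1).trans_lt
          (isCompact_closedBall z₀ r).measure_lt_top).ne
      have h5 := measureReal_mono hsub hfin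
      have h6 := vol_ge w (η / T) (by positivity) ((div_le_self hη.le hT).trans hη1)
      have h7 := hC U T hT hU
      have e : Real.pi * (η / T) ^ 2 / 64 = Real.pi * η ^ 2 / 64 / T ^ 2 := by
        field_simp
      rw [e] at h6
      linarith
  refine ⟨key, ?_⟩
  constructor
  · intro hb ε hε
    exact (key ε).1 fun Ω h1 h2 => hb Ω h1 h2 ε hε
  · intro hb Ω h1 h2 ε hε
    exact (key ε).2 (hb ε hε) Ω h1 h2

end Pool.Agent.Results.MP_8fded1_nt.LargeValuesFillDiscs
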