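import Mathlib
import Pool.Agent.U766.SN.Strip
import Pool.Agent.N889.SN.Diag
import Pool.Agent.N889.SN.Fin
import Pool.Agent.Results.MP_8fded1_nt.EllipticPointIsHarmless

set_option autoImplicit false

/-!
# MP_8fded1_nt: one small disc controls the compact sets

Let `U` be a Hecke-Maass cusp form for the full modular group. No bound below depends on `U`.

(1) A horizontal strip `a < Im w < (1 + η) a`, however thin, controls everything high above it: if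
`Im z ≥ H a`, one of the points `w = (z + t) / n` with `n = 2^i 3^j`, `0 ≤ t < n`, in the strip has
`|U z| ≤ C (Im z / a) ^ B |U w|`, where `H, C, B` depend on `η` only.
(2) Every strip `a < Im w < b` controls every compact set.
(3) Every hyperbolic disc whose centre has a modular translate of height greater than
`1 / (2 radius)` controls every compact set; so discs of arbitrarily small radius high in the cusp do,
and so does every disc of radius greater than `1 / √3`. The sup-norm bound for all compact sets is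
equivalent to the bound for the disc.
(4) The sup-norm conjecture for all compact sets is equivalent to the bound by `T ^ ε` for one disc
`D_T` with centre `z₀ T` and radius `ρ / Im (z₀ T)`, for every function `z₀` which goes to the cusp
sufficiently slowly, where `ρ > 1/2` is fixed.

Proof of (1). For fixed `z` let `E (i, j)` be `n ^ (-1/2)` times the sum of the values of `U` at the `n`
points `(z + t) / n`, `n = 2^i 3^j`. The Hecke relations for `2` and `3` give a recurrence of order two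
in `i` and one in `j`; so `E` extends to `ℤ × ℤ`. On each line of `ℤ × ℤ` the extension satisfies a
recurrence of order four with leading and constant coefficient one. So for a basis `u`, `v` of
`ℤ × ℤ` the value `E (0, 0) = U z` is controlled by the sixteen values at `P + k u + l v`,
`0 ≤ k, l ≤ 3`. As `log 2 / log 3` is irrational, the basis can be chosen such that the sixteen
numbers `n` are as close to each other as one likes.
-/

namespace Pool.Agent.Results.MP_8fded1_nt.OneSmallDiscControls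

open Filter UpperHalfPlane
open scoped MatrixGroups
open Pool.Agent.Results.MP_8fded1_nt.EllipticPointIsHarmless (IsHeckeMaass SupNormBound invariance)
open Pool.Agent.U766.SN (Pts)

/-- integer translates -/
lemma move {U : ℂ → ℂ} {T : ℝ} (hU : IsHeckeMaass U T) (x₀ : ℝ) {w : ℂ} (hw : 0 < w.im) :
    ∃ v : ℂ, U v = U w ∧ v.im = w.im ∧ |v.re - x₀| ≤ 1 / 2 := by
  refine ⟨w + ((-round (w.re - x₀) : ℤ) : ℂ), (Pool.Agent.N889.SN.isPer hU).int _ hw, by simp, ?_⟩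
  have e : (w + ((-round (w.re - x₀) : ℤ) : ℂ)).re - x₀ = (w.re - x₀) - round (w.re - x₀) := by
    simp only [Int.cast_neg, Complex.add_re, Complex.neg_re, Complex.intCast_re]
    ring
  rw [e]
  exact abs_sub_round _

lemma dist_bound (z w : ℍ) (h : z.im ≤ w.im) :
    dist w z ≤ |w.re - z.re| / z.im + (Real.log w.im - Real.log z.im) := by
  set v : ℍ := ⟨⟨w.re, z.im⟩, z.im_pos⟩ with hv
  have hvre : v.re = w.re := rfl
  have hvim : v.im = z.im := rfl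
  have h1 : dist w v = Real.log w.im - Real.log z.im := by
    rw [dist_of_re_eq hvre.symm, hvim, Real.dist_eq, abs_of_nonneg]
    have := Real.log_le_log z.im_pos h
    linarith
  have h2 : dist v z ≤ |w.re - z.re| / z.im := by
    refine (dist_le_dist_coe_div_sqrt v z).trans (le_of_eq ?_)
    have e1 : √(v.im * z.im) = z.im := by
      rw [hvim, Real.sqrt_mul_self z.im_pos.le]
    have e2 : dist (v : ℂ) z = |w.re - z.re| := by
      rw [Complex.dist_of_im_eq (by exact hvim), Real.dist_eq]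
      rfl
    rw [e1, e2]
  calc dist w z ≤ dist w v + dist v z := dist_triangle _ _ _
    _ ≤ _ := by linarith

/-- discs of radius `ρ / Im z₁`, uniformly for bounded heights -/
theorem discs (ρ c k : ℝ) (hρ : 1 / 2 < ρ) (hc : 0 < c) (Ω : Set ℂ) (hΩ : IsCompact Ω)
    (hΩ' : Ω ⊆ {z : ℂ | 0 < z.im}) :
    ∃ C : ℝ, 0 < C ∧ ∀ (U : ℂ → ℂ) (T : ℝ), IsHeckeMaass U T → ∀ z₁ : ℍ, c ≤ z₁.im → z₁.im ≤ k →
      ∀ z ∈ Ω, ∃ w : ℍ, dist w z₁ < ρ / z₁.im ∧ ‖U z‖ ≤ C * ‖U w‖ := by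
  set η : ℝ := (ρ - 1 / 2) / (2 * (|k| + 1)) with hη
  have hη0 : 0 < η := by
    have : 0 < ρ - 1 / 2 := by linarith
    positivity
  obtain ⟨C, hC, h⟩ := Pool.Agent.U766.SN.strip Pool.Agent.N889.SN.KK Pool.Agent.N889.SN.KK_nonneg η hη0 c k hc
    Ω hΩ hΩ'
  refine ⟨C, hC, fun U T hU z₁ h1 h2 z hz => ?_⟩
  obtain ⟨w₀, hw₀, hw1, hw2⟩ := h U (Pool.Agent.N889.SN.isPer hU) (fun z hz => (hU.2.1 z hz).2) z₁.im h1 h2 z hz
  have hy := z₁.im_pos
  obtain ⟨v, hv, hv1, hv2⟩ := move hU z₁.re (hy.trans hw1)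
  rw [← hv] at hw₀
  rw [← hv1] at hw1 hw2
  refine ⟨⟨v, hy.trans hw1⟩, ?_, hw₀⟩
  have h3 := dist_bound z₁ ⟨v, hy.trans hw1⟩ hw1.le
  refine h3.trans_lt ?_
  have e1 : (⟨v, hy.trans hw1⟩ : ℍ).im = v.im := rfl
  have e2 : (⟨v, hy.trans hw1⟩ : ℍ).re = v.re := rfl
  rw [e1, e2]
  have h4 : Real.log v.im - Real.log z₁.im ≤ η := by
    rw [← Real.log_div (hy.trans hw1).ne' hy.ne']
    have h5 : v.im / z₁.im ≤ 1 + η := by
      rw [div_le_iff₀ hy]
      exact hw2.le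
    have h6 : 0 < v.im / z₁.im := div_pos (hy.trans hw1) hy
    have h7 := Real.log_le_sub_one_of_pos h6
    linarith
  have h5 : |v.re - z₁.re| / z₁.im ≤ (1 / 2) / z₁.im := by gcongr
  have h6 : η < (ρ - 1 / 2) / z₁.im := by
    rw [hη]
    have h7 : z₁.im < 2 * (|k| + 1) := by
      have := le_abs_self k
      have := abs_nonneg k
      linarith
    have h8 : 0 < ρ - 1 / 2 := by linarith
    gcongr
  calc |v.re - z₁.re| / z₁.im + (Real.log v.im - Real.log z₁.im) < (1 / 2) / z₁.im + (ρ - 1 / 2) / z₁.im := by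
        linarith
    _ = ρ / z₁.im := by ring

lemma isCompact_box (r a b : ℝ) : IsCompact {z : ℂ | |z.re| ≤ r ∧ a ≤ z.im ∧ z.im ≤ b} := by
  have hc : IsCompact (Complex.equivRealProdCLM.symm '' (Set.Icc (-r) r ×ˢ Set.Icc a b)) :=
    (isCompact_Icc.prod isCompact_Icc).image Complex.equivRealProdCLM.symm.continuous
  have e : Complex.equivRealProdCLM.symm '' (Set.Icc (-r) r ×ˢ Set.Icc a b) =
      {z : ℂ | |z.re| ≤ r ∧ a ≤ z.im ∧ z.im ≤ b} := by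
    ext z
    constructor
    · rintro ⟨⟨x, y⟩, ⟨hx, hy⟩, rfl⟩
      exact ⟨abs_le.2 ⟨hx.1, hx.2⟩, hy.1, hy.2⟩
    · rintro ⟨h1, h2, h3⟩
      exact ⟨(z.re, z.im), ⟨⟨(abs_le.1 h1).1, (abs_le.1 h1).2⟩, ⟨h2, h3⟩⟩, rfl⟩
  rwa [e] at hc

/-- a single disc -/
theorem one_disc (z₀ : ℍ) (g : SL(2, ℤ)) (r : ℝ) (hr : 1 < 2 * r * (g • z₀).im) (Ω : Set ℂ) (hΩ : IsCompact Ω)
    (hΩ' : Ω ⊆ {z : ℂ | 0 < z.im}) :
    ∃ C : ℝ, 0 < C ∧ ∀ (U : ℂ → ℂ) (T : ℝ), IsHeckeMaass U T →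
      ∀ z ∈ Ω, ∃ w : ℍ, dist w z₀ < r ∧ ‖U z‖ ≤ C * ‖U w‖ := by
  have hy := (g • z₀).im_pos
  obtain ⟨C, hC, h⟩ := discs (r * (g • z₀).im) (g • z₀).im (g • z₀).im (by linarith) hy Ω hΩ hΩ'
  refine ⟨C, hC, fun U T hU z hz => ?_⟩
  obtain ⟨w, hw, hw'⟩ := h U T hU (g • z₀) le_rfl le_rfl z hz
  rw [mul_div_assoc, div_self hy.ne', mul_one] at hw
  refine ⟨g⁻¹ • w, ?_, ?_⟩
  · have e : dist (g⁻¹ • w) z₀ = dist w (g • z₀) := by
      have h1 := dist_smul (Matrix.SpecialLinearGroup.map (Int.castRingHom ℝ) g) (g⁻¹ • w) z₀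
      have e1 : ∀ v : ℍ, (Matrix.SpecialLinearGroup.map (Int.castRingHom ℝ) g) • v = g • v := fun v => rfl
      rw [e1, e1, smul_inv_smul] at h1
      exact h1.symm
    rw [e]
    exact hw
  · rw [invariance hU.2.1 g⁻¹ w]
    exact hw'

/-- every disc of radius greater than `1 / √3` -/
theorem big_disc (z₀ : ℍ) (r : ℝ) (hr : 1 / √3 < r) : ∃ g : SL(2, ℤ), 1 < 2 * r * (g • z₀).im := by
  obtain ⟨g, hg⟩ := ModularGroup.exists_smul_mem_fd z₀
  refine ⟨g, ?_⟩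
  have h1 := ModularGroup.three_le_four_mul_im_sq_of_mem_fd hg
  have hy := (g • z₀).im_pos
  have h3 : (0 : ℝ) < √3 := by positivity
  have h4 : √3 ≤ 2 * (g • z₀).im := by
    rw [Real.sqrt_le_left (by positivity)]
    nlinarith
  have h5 : 1 < r * √3 := by rwa [div_lt_iff₀ h3] at hr
  have hr0 : 0 < r := lt_trans (by positivity) hr
  nlinarith

/-- the sup-norm bound with exponent `s` on the hyperbolic disc with centre `z₀` and radius `r` -/
def DiscBound (z₀ : ℍ) (r s : ℝ) : Prop :=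
  ∃ C : ℝ, ∀ (U : ℂ → ℂ) (T : ℝ), 1 ≤ T → IsHeckeMaass U T → ∀ w : ℍ, dist w z₀ < r → ‖U w‖ ≤ C * T ^ s

theorem slow (ρ c : ℝ) (hρ : 1 / 2 < ρ) (hc : 0 < c) :
    ∃ G : ℝ → ℝ, Tendsto G atTop atTop ∧ (∀ T, c ≤ G T) ∧ ∀ z₀ : ℝ → ℍ,
      (∀ T, 1 ≤ T → c ≤ (z₀ T).im ∧ (z₀ T).im ≤ G T) → ∀ s : ℝ,
      ((∀ ε : ℝ, 0 < ε → ∀ Ω : Set ℂ, IsCompact Ω → Ω ⊆ {z : ℂ | 0 < z.im} → SupNormBound Ω (s + ε)) ↔
        ∀ ε : ℝ, 0 < ε → ∃ C : ℝ, ∀ (U : ℂ → ℂ) (T : ℝ), 1 ≤ T → IsHeckeMaass U T →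
          ∀ w : ℍ, dist w (z₀ T) < ρ / (z₀ T).im → ‖U w‖ ≤ C * T ^ (s + ε)) := by
  have hcore : {z : ℂ | |z.re| ≤ 1 / 2 ∧ (1 / 2 : ℝ) ≤ z.im ∧ z.im ≤ 5 / 2} ⊆ {z : ℂ | 0 < z.im} :=
    fun z hz => lt_of_lt_of_le (by norm_num) hz.2.1
  have hρ0 : 0 < ρ := by linarith
  choose C hC h using fun k : ℕ => discs ρ c (c + k) hρ hc _ (isCompact_box (1 / 2) (1 / 2) (5 / 2)) hcore
  have hlow : 0 < c * Real.exp (-(ρ / c)) := by positivity
  choose D hD hD' using fun k : ℕ => Pool.Agent.N889.SN.toCore Pool.Agent.N889.SN.KK Pool.Agent.N889.SN.KK_nonneg _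
    (isCompact_box (1 / 2) (c * Real.exp (-(ρ / c))) ((c + k) * Real.exp (ρ / c)))
    (fun z hz => lt_of_lt_of_le hlow hz.2.1)
  obtain ⟨κ, hκ, -, -, hκε⟩ := Pool.Agent.N889.SN.diag (fun k => C k + D k) (fun _ => 0)
    (fun k => add_pos (hC k) (hD k)) (fun T => T) tendsto_id
  refine ⟨fun T => c + κ T, tendsto_const_nhds.add_atTop (tendsto_natCast_atTop_atTop.comp hκ),
    fun T => by simp, fun z₀ hz₀ s => ⟨?_, ?_⟩⟩
  · intro hQ ε hε
    obtain ⟨B, hB, hB'⟩ := hκε (ε / 2) (by positivity)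
    obtain ⟨A, hA⟩ := hQ (ε / 2) (by positivity) _ (isCompact_box (1 / 2) (1 / 2) (5 / 2)) hcore
    refine ⟨B * |A|, fun U T hT hU w hw => ?_⟩
    have hT0 : 0 < T := by linarith
    have hTε : 0 < T ^ (ε / 2) := Real.rpow_pos_of_pos hT0 _
    have hTs : 0 < T ^ (s + ε / 2) := Real.rpow_pos_of_pos hT0 _
    obtain ⟨g1, g2⟩ := hz₀ T hT
    have hy := (z₀ T).im_pos
    have hd : dist w (z₀ T) ≤ ρ / c := hw.le.trans (by gcongr)
    have e1 : c * Real.exp (-(ρ / c)) ≤ w.im := by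
      have a1 := im_div_exp_dist_le (z₀ T) w
      rw [dist_comm] at a1
      refine le_trans ?_ a1
      rw [Real.exp_neg, ← div_eq_mul_inv]
      gcongr
    have e2 : w.im ≤ (c + κ T) * Real.exp (ρ / c) := by
      refine (im_le_im_mul_exp_dist w (z₀ T)).trans ?_
      gcongr
    obtain ⟨v, hv, hv1, hv2⟩ := move hU 0 (w := w) w.im_pos
    rw [sub_zero] at hv2
    have hv3 : v.im = w.im := hv1
    obtain ⟨u, hu, hu1, hu2, hu3⟩ := hD' (κ T) U (Pool.Agent.N889.SN.isPer hU) (fun g z => invariance hU.2.1 g z) v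
      ⟨hv2, by rw [hv3]; exact e1, by rw [hv3]; exact e2⟩
    rw [hv] at hu
    have h2 := hA U T hT hU u ⟨hu1, hu2, hu3⟩
    have h3 := hB' T hT
    have h4 : D (κ T) ≤ B * T ^ (ε / 2) := by
      have := (hC (κ T)).le
      linarith
    calc ‖U w‖ ≤ D (κ T) * ‖U u‖ := hu
      _ ≤ (B * T ^ (ε / 2)) * (|A| * T ^ (s + ε / 2)) := by
        gcongr
        exact h2.trans (by gcongr; exact le_abs_self A)
      _ = B * |A| * (T ^ (ε / 2) * T ^ (s + ε / 2)) := by ring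
      _ = B * |A| * T ^ (s + ε) := by rw [← Real.rpow_add hT0]; congr 2; ring
  · intro hQ ε hε Ω hΩ hΩ'
    obtain ⟨B, hB, hB'⟩ := hκε (ε / 2) (by positivity)
    obtain ⟨A, hA⟩ := hQ (ε / 2) (by positivity)
    obtain ⟨C₀, hC₀, h₀⟩ := Pool.Agent.N889.SN.toCore Pool.Agent.N889.SN.KK Pool.Agent.N889.SN.KK_nonneg Ω hΩ hΩ'
    refine ⟨C₀ * B * |A|, fun U T hT hU z hz => ?_⟩
    have hT0 : 0 < T := by linarith
    have hTε : 0 < T ^ (ε / 2) := Real.rpow_pos_of_pos hT0 _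
    have hTs : 0 < T ^ (s + ε / 2) := Real.rpow_pos_of_pos hT0 _
    obtain ⟨g1, g2⟩ := hz₀ T hT
    obtain ⟨v, h0, hv1, hv2, hv3⟩ := h₀ U (Pool.Agent.N889.SN.isPer hU) (fun g z => invariance hU.2.1 g z) z hz
    obtain ⟨w, hw, h1⟩ := h (κ T) U T hU (z₀ T) g1 g2 v ⟨hv1, hv2, hv3⟩
    have h2 := hA U T hT hU w hw
    have h3 := hB' T hT
    have h4 : C (κ T) ≤ B * T ^ (ε / 2) := by
      have := (hD (κ T)).le
      linarith
    calc ‖U z‖ ≤ C₀ * ‖U v‖ := h0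
      _ ≤ C₀ * (C (κ T) * ‖U w‖) := by gcongr
      _ ≤ C₀ * ((B * T ^ (ε / 2)) * (|A| * T ^ (s + ε / 2))) := by
        gcongr
        exact h2.trans (by gcongr; exact le_abs_self A)
      _ = C₀ * B * |A| * (T ^ (ε / 2) * T ^ (s + ε / 2)) := by ring
      _ = C₀ * B * |A| * T ^ (s + ε) := by rw [← Real.rpow_add hT0]; congr 2; ring

/-- **Main result.** All constants are independent of the form `U` and of `T`.
(1) High points: for every `η > 0` there are `H, C, B` such that for every Hecke-Maass cusp form `U`,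
every `a > 0` and every `z` with `Im z ≥ H a` there is a point `w = (z + t) / n`, `n = 2^i 3^j`,
`0 ≤ t < n`, with `a < Im w = Im z / n < (1 + η) a` and `|U z| ≤ C (Im z / a)^B |U w|`.
(2) Strips: for `0 < a < b` and compact `Ω` there is `C` such that for every `U` and `z ∈ Ω` there is `w`
with `|Re w| ≤ 1/2`, `a < Im w < b` and `|U z| ≤ C |U w|`.
(3) Discs: let `z₀`, `r` be such that some modular translate of `z₀` has height greater than `1 / (2 r)`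
(which is the case for all `z₀` if `r > 1 / √3`). For every compact `Ω` there is `C` such that for
every `U` and `z ∈ Ω` there is `w` with `dist w z₀ < r` and `|U z| ≤ C |U w|`. For every exponent
`s` the sup-norm bound on all compact sets is equivalent to the bound on this disc.
(4) Shrinking discs: let `ρ > 1/2`, `c > 0`. There is a function `G ≥ c` tending to infinity such that
for all centres `z₀ T` with `c ≤ Im (z₀ T) ≤ G T` (for `T ≥ 1`) and all `s` the sup-norm bounds with the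
exponents `s + ε`, `ε > 0`, for all compact sets (for `s = 0`: the conjecture) are equivalent to the bounds
`|U w| ≤ C_ε T ^ (s + ε)` for all `w` with `dist w (z₀ T) < ρ / Im (z₀ T)`. -/
theorem result :
    (∀ η : ℝ, 0 < η → ∃ H C : ℝ, 0 < H ∧ 0 < C ∧ ∃ B : ℕ, ∀ (U : ℂ → ℂ) (T : ℝ), IsHeckeMaass U T →
      ∀ a : ℝ, 0 < a → ∀ z : ℂ, H * a ≤ z.im → ∃ i j t : ℕ, t < 2 ^ i * 3 ^ j ∧
        a < z.im / (2 ^ i * 3 ^ j) ∧ z.im / (2 ^ i * 3 ^ j) < (1 + η) * a ∧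
        ‖U z‖ ≤ C * (z.im / a) ^ B * ‖U ((z + t) / ((2 ^ i * 3 ^ j : ℕ) : ℂ))‖) ∧
    (∀ a b : ℝ, 0 < a → a < b → ∀ Ω : Set ℂ, IsCompact Ω → Ω ⊆ {z : ℂ | 0 < z.im} →
      ∃ C : ℝ, 0 < C ∧ ∀ (U : ℂ → ℂ) (T : ℝ), IsHeckeMaass U T → ∀ z ∈ Ω,
        ∃ w : ℂ, |w.re| ≤ 1 / 2 ∧ a < w.im ∧ w.im < b ∧ ‖U z‖ ≤ C * ‖U w‖) ∧
    (∀ (z₀ : ℍ) (r : ℝ), ((∃ g : SL(2, ℤ), 1 < 2 * r * (g • z₀).im) ∨ 1 / √3 < r) →
      (∀ Ω : Set ℂ, IsCompact Ω → Ω ⊆ {z : ℂ | 0 < z.im} →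
        ∃ C : ℝ, 0 < C ∧ ∀ (U : ℂ → ℂ) (T : ℝ), IsHeckeMaass U T → ∀ z ∈ Ω,
          ∃ w : ℍ, dist w z₀ < r ∧ ‖U z‖ ≤ C * ‖U w‖) ∧
      ∀ s : ℝ, (∀ Ω : Set ℂ, IsCompact Ω → Ω ⊆ {z : ℂ | 0 < z.im} → SupNormBound Ω s) ↔ DiscBound z₀ r s) ∧
    (∀ ρ c : ℝ, 1 / 2 < ρ → 0 < c → ∃ G : ℝ → ℝ, Tendsto G atTop atTop ∧ (∀ T, c ≤ G T) ∧ ∀ z₀ : ℝ → ℍ,
      (∀ T, 1 ≤ T → c ≤ (z₀ T).im ∧ (z₀ T).im ≤ G T) → ∀ s : ℝ,
      ((∀ ε : ℝ, 0 < ε → ∀ Ω : Set ℂ, IsCompact Ω → Ω ⊆ {z : ℂ | 0 < z.im} → SupNormBound Ω (s + ε)) ↔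
        ∀ ε : ℝ, 0 < ε → ∃ C : ℝ, ∀ (U : ℂ → ℂ) (T : ℝ), 1 ≤ T → IsHeckeMaass U T →
          ∀ w : ℍ, dist w (z₀ T) < ρ / (z₀ T).im → ‖U w‖ ≤ C * T ^ (s + ε))) := by
  refine ⟨fun η hη => ?_, fun a b ha hab Ω hΩ hΩ' => ?_, fun z₀ r hr => ?_, slow⟩
  · obtain ⟨H, C, hH, hC, B, h⟩ := Pool.Agent.U766.SN.high Pool.Agent.N889.SN.KK Pool.Agent.N889.SN.KK_nonneg η hη
    refine ⟨H, C, hH, hC, B, fun U T hU a ha z hz => ?_⟩
    obtain ⟨x, ⟨i, j, t, h1, h2, h3, rfl⟩, h4⟩ := h U (Pool.Agent.N889.SN.isPer hU) a ha z hz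
    exact ⟨i, j, t, h1, h2, h3, h4⟩
  · obtain ⟨C, hC, h⟩ := Pool.Agent.U766.SN.strip Pool.Agent.N889.SN.KK Pool.Agent.N889.SN.KK_nonneg (b / a - 1)
      (by rw [sub_pos, lt_div_iff₀ ha]; linarith) a a ha Ω hΩ hΩ'
    refine ⟨C, hC, fun U T hU z hz => ?_⟩
    obtain ⟨w, hw, hw1, hw2⟩ := h U (Pool.Agent.N889.SN.isPer hU) (fun z hz => (hU.2.1 z hz).2) a le_rfl le_rfl z hz
    rw [show (1 + (b / a - 1)) * a = b by field_simp; ring] at hw2
    obtain ⟨v, hv, hv1, hv2⟩ := move hU 0 (ha.trans hw1)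
    rw [← hv] at hw
    rw [← hv1] at hw1 hw2
    rw [sub_zero] at hv2
    exact ⟨v, hv2, hw1, hw2, hw⟩
  · obtain ⟨g, hg⟩ : ∃ g : SL(2, ℤ), 1 < 2 * r * (g • z₀).im := by
      rcases hr with h | h
      · exact h
      · exact big_disc z₀ r h
    refine ⟨fun Ω hΩ hΩ' => one_disc z₀ g r hg Ω hΩ hΩ', fun s => ⟨fun hQ => ?_, fun hQ Ω hΩ hΩ' => ?_⟩⟩
    · obtain ⟨C, hC⟩ := hQ ((fun w : ℍ => (w : ℂ)) '' Metric.closedBall z₀ r)
        ((isCompact_closedBall z₀ r).image UpperHalfPlane.continuous_coe)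
        (by rintro _ ⟨w, -, rfl⟩; exact w.im_pos)
      exact ⟨C, fun U T hT hU w hw => hC U T hT hU w ⟨w, hw.le, rfl⟩⟩
    · obtain ⟨C, hC, h⟩ := one_disc z₀ g r hg Ω hΩ hΩ'
      obtain ⟨B, hB⟩ := hQ
      refine ⟨C * B, fun U T hT hU z hz => ?_⟩
      obtain ⟨w, hw, h3⟩ := h U T hU z hz
      calc ‖U z‖ ≤ C * ‖U w‖ := h3
        _ ≤ C * (B * T ^ s) := by
          gcongr
          exact hB U T hT hU w hw
        _ = C * B * T ^ s := by ring

end Pool.Agent.Results.MP_8fded1_nt.OneSmallDiscControls
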